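import Mathlib

/-!
The Maker-Breaker game on a family of finite sets (the remaining parts of the winning sets of
Maker), Maker to move.
-/

namespace Pool.Agent.K4B

variable {V : Type*} [DecidableEq V]

/-- the family after Maker took `e` and Breaker took `f` -/
def nx (F : Set (Finset V)) (e f : V) : Set (Finset V) := {T | ∃ S ∈ F, f ∉ S ∧ T = S.erase e}

/-- Breaker wins the game on the family `F`, Maker to move (`r e` is the answer to `e`). -/
inductive BW : Set (Finset V) → Prop
  | mk {F : Set (Finset V)} (h0 : ∅ ∉ F) (r : V → V) (hr : ∀ e, (∃ S ∈ F, e ∈ S) → r e ≠ e)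
      (h : ∀ e, (∃ S ∈ F, e ∈ S) → BW (nx F e (r e))) : BW F

theorem BW.of {F : Set (Finset V)} (h0 : ∅ ∉ F)
    (h : ∀ e, (∃ S ∈ F, e ∈ S) → ∃ f, f ≠ e ∧ BW (nx F e f)) : BW F := by
  classical
  choose! r hr using h
  exact BW.mk h0 r (fun e he => (hr e he).1) (fun e he => (hr e he).2)

theorem BW.zero {F : Set (Finset V)} (h : BW F) : ∅ ∉ F := by
  cases h; assumption

theorem BW.reply {F : Set (Finset V)} (h : BW F) {e : V} (he : ∃ S ∈ F, e ∈ S) :
    ∃ f, f ≠ e ∧ BW (nx F e f) := by
  cases h with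
  | mk h0 r hr h => exact ⟨r e, hr e he, h e he⟩

/-- `π` is an involution; a pair is `{x, π x}` with `π x ≠ x`. -/
def Inv (π : V → V) : Prop := ∀ x, π (π x) = x

/-- `S` is covered: it contains a pair, or outside of all pairs a set of `G` -/
def Cov (π : V → V) (G : Set (Finset V)) (S : Finset V) : Prop :=
  (∃ x ∈ S, π x ∈ S ∧ π x ≠ x) ∨ ∃ T ∈ G, T ⊆ S ∧ ∀ x ∈ T, π x = x

omit [DecidableEq V] in
theorem Cov.ne_empty {π : V → V} {G : Set (Finset V)} {S : Finset V} (h : Cov π G S)
    (h0 : ∅ ∉ G) : S ≠ ∅ := by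
  rintro rfl
  rcases h with ⟨x, hx, _⟩ | ⟨T, hT, hTS, _⟩
  · simp at hx
  · rw [Finset.subset_empty] at hTS
    exact h0 (hTS ▸ hT)

/-- the pairing lemma -/
theorem BW.pairs' [Nontrivial V] {G : Set (Finset V)} (hG : BW G) {π : V → V} (hπ : Inv π) :
    ∀ (n : ℕ) (X : Finset V), X.card = n → ∀ F : Set (Finset V), (∀ S ∈ F, S ⊆ X) →
      (∀ S ∈ F, Cov π G S) → BW F := by
  induction hG with
  | @mk G h0 r hr h ih =>
    intro n
    induction n with
    | zero =>
      intro X hX F hF hc
      rw [Finset.card_eq_zero] at hX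
      subst hX
      refine BW.of (fun h' => (hc _ h').ne_empty h0 rfl) ?_
      rintro e ⟨S, hS, heS⟩
      have := hF S hS heS
      simp at this
    | succ n ihn =>
      intro X hX F hF hc
      refine BW.of (fun h' => (hc _ h').ne_empty h0 rfl) ?_
      rintro e ⟨S₀, hS₀, heS₀⟩
      have heX : e ∈ X := hF S₀ hS₀ heS₀
      have hX' : (X.erase e).card = n := by
        rw [Finset.card_erase_of_mem heX, hX]; rfl
      have hsub : ∀ f, ∀ T ∈ nx F e f, T ⊆ X.erase e := by
        rintro f T ⟨S, hS, _, rfl⟩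
        exact Finset.erase_subset_erase e (hF S hS)
      by_cases hp : π e = e
      · by_cases hm : ∃ T ∈ G, e ∈ T
        · refine ⟨r e, hr e hm, ?_⟩
          apply ih e hm n (X.erase e) hX' _ (hsub _)
          rintro T ⟨S, hS, hfS, rfl⟩
          rcases hc S hS with ⟨x, hx, hpx, hne⟩ | ⟨T, hT, hTS, hTp⟩
          · left
            refine ⟨x, Finset.mem_erase.2 ⟨?_, hx⟩, Finset.mem_erase.2 ⟨?_, hpx⟩, hne⟩
            · rintro rfl; exact hne hp
            · intro h'
              apply hne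
              have := hπ x
              rw [h', hp] at this
              rw [h', this]
          · right
            refine ⟨T.erase e, ⟨T, hT, fun h' => hfS (hTS h'), rfl⟩,
              Finset.erase_subset_erase e hTS, ?_⟩
            intro x hx
            exact hTp x (Finset.mem_of_mem_erase hx)
        · obtain ⟨e1, he1⟩ := exists_ne e
          refine ⟨e1, he1, ?_⟩
          apply ihn (X.erase e) hX' _ (hsub _)
          rintro T ⟨S, hS, hfS, rfl⟩
          rcases hc S hS with ⟨x, hx, hpx, hne⟩ | ⟨T, hT, hTS, hTp⟩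
          · left
            refine ⟨x, Finset.mem_erase.2 ⟨?_, hx⟩, Finset.mem_erase.2 ⟨?_, hpx⟩, hne⟩
            · rintro rfl; exact hne hp
            · intro h'
              apply hne
              have := hπ x
              rw [h', hp] at this
              rw [h', this]
          · right
            refine ⟨T, hT, ?_, hTp⟩
            rw [Finset.subset_erase]
            exact ⟨hTS, fun h' => hm ⟨T, hT, h'⟩⟩
      · refine ⟨π e, hp, ?_⟩
        apply ihn (X.erase e) hX' _ (hsub _)
        rintro T ⟨S, hS, hfS, rfl⟩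
        rcases hc S hS with ⟨x, hx, hpx, hne⟩ | ⟨T, hT, hTS, hTp⟩
        · left
          refine ⟨x, Finset.mem_erase.2 ⟨?_, hx⟩, Finset.mem_erase.2 ⟨?_, hpx⟩, hne⟩
          · rintro rfl; exact hfS hpx
          · intro h'
            apply hfS
            rw [← h', hπ x]
            exact hx
        · right
          refine ⟨T, hT, ?_, hTp⟩
          rw [Finset.subset_erase]
          exact ⟨hTS, fun h' => hp (hTp e h')⟩

/-- the pairing lemma -/
theorem BW.pairs [Nontrivial V] {G : Set (Finset V)} (hG : BW G) {π : V → V} (hπ : Inv π) (X : Finset V)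
    {F : Set (Finset V)} (hF : ∀ S ∈ F, S ⊆ X) (hc : ∀ S ∈ F, Cov π G S) : BW F :=
  hG.pairs' hπ _ X rfl F hF hc

theorem BW.mono [Nontrivial V] {G : Set (Finset V)} (hG : BW G) (X : Finset V)
    {F : Set (Finset V)} (hF : ∀ S ∈ F, S ⊆ X) (hc : ∀ S ∈ F, ∃ T ∈ G, T ⊆ S) : BW F :=
  hG.pairs (π := id) (fun _ => rfl) X hF
    (fun S hS => Or.inr (let ⟨T, hT, hTS⟩ := hc S hS; ⟨T, hT, hTS, fun _ _ => rfl⟩))

/-- image of a family under a renaming of the elements -/
theorem BW.image {G : Set (Finset V)} (hG : BW G) {g : V → V} (hg : Function.Injective g) :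
    BW {S | ∃ T ∈ G, S = T.image g} := by
  classical
  induction hG with
  | @mk G h0 r hr h ih =>
    refine BW.of ?_ ?_
    · rintro ⟨T, hT, h'⟩
      have : T = ∅ := by
        rw [← Finset.image_eq_empty (f := g)]; exact h'.symm
      exact h0 (this ▸ hT)
    · rintro e ⟨S, ⟨T, hT, rfl⟩, he⟩
      obtain ⟨e', he', rfl⟩ := Finset.mem_image.1 he
      have hm : ∃ T ∈ G, e' ∈ T := ⟨T, hT, he'⟩
      refine ⟨g (r e'), fun h' => hr e' hm (hg h'), ?_⟩
      have := ih e' hm
      convert this using 1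
      ext S
      constructor
      · rintro ⟨S1, ⟨T1, hT1, rfl⟩, hf, rfl⟩
        refine ⟨T1.erase e', ⟨T1, hT1, fun h' => hf (Finset.mem_image_of_mem g h'), rfl⟩, ?_⟩
        rw [Finset.image_erase hg]
      · rintro ⟨T1, ⟨T2, hT2, hf, rfl⟩, rfl⟩
        refine ⟨T2.image g, ⟨T2, hT2, rfl⟩, ?_, ?_⟩
        · intro h'
          obtain ⟨x, hx, hxe⟩ := Finset.mem_image.1 h'
          exact hf (hg hxe ▸ hx)
        · rw [Finset.image_erase hg]

/-- dominated moves of Maker need not be considered -/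
theorem BW.dom [Nontrivial V] {F : Set (Finset V)} (X : Finset V) (hF : ∀ S ∈ F, S ⊆ X) (h0 : ∅ ∉ F)
    (C : V → Prop)
    (hC : ∀ e, (∃ S ∈ F, e ∈ S) → C e ∨ ∃ e', C e' ∧ ∀ S ∈ F, e ∈ S → e' ∈ S)
    (h : ∀ e, (∃ S ∈ F, e ∈ S) → C e → ∃ f, f ≠ e ∧ BW (nx F e f)) : BW F := by
  classical
  refine BW.of h0 ?_
  rintro e he
  by_cases hCe : C e
  · exact h e he hCe
  rcases hC e he with h' | ⟨e', hCe', hdom⟩
  · exact absurd h' hCe
  have hne : e ≠ e' := fun h' => hCe (h' ▸ hCe')
  obtain ⟨S, hS, heS⟩ := he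
  obtain ⟨f, hfe, hf⟩ := h e' ⟨S, hS, hdom S hS heS⟩ hCe'
  refine ⟨Equiv.swap e e' f, ?_, ?_⟩
  · intro h'
    apply hfe
    have := congrArg (Equiv.swap e e') h'
    rw [Equiv.swap_apply_self, Equiv.swap_apply_left] at this
    exact this
  · have hi := hf.image (Equiv.swap e e').injective
    refine hi.mono X ?_ ?_
    · rintro T ⟨S, hS, _, rfl⟩
      exact (Finset.erase_subset _ _).trans (hF S hS)
    · rintro T ⟨S, hS, hfS, rfl⟩
      by_cases heS : e ∈ S
      · -- then also e' ∈ S
        have he'S := hdom S hS heS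
        have hf' : f ∉ S := by
          intro hfm
          apply hfS
          by_cases h1 : f = e
          · rw [h1, Equiv.swap_apply_left]; exact he'S
          · rw [Equiv.swap_apply_of_ne_of_ne h1 hfe]; exact hfm
        refine ⟨(S.erase e').image (Equiv.swap e e'), ⟨S.erase e', ⟨S, hS, hf', rfl⟩, rfl⟩, ?_⟩
        intro x hx
        obtain ⟨y, hy, rfl⟩ := Finset.mem_image.1 hx
        rw [Finset.mem_erase] at hy
        by_cases h1 : y = e
        · rw [h1, Equiv.swap_apply_left, Finset.mem_erase]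
          exact ⟨hne.symm, he'S⟩
        · rw [Equiv.swap_apply_of_ne_of_ne h1 hy.1, Finset.mem_erase]
          exact ⟨h1, hy.2⟩
      · by_cases hfe2 : f = e
        · -- the answer is e'
          rw [hfe2, Equiv.swap_apply_left] at hfS
          refine ⟨(S.erase e').image (Equiv.swap e e'), ⟨S.erase e', ⟨S, hS, ?_, rfl⟩, rfl⟩, ?_⟩
          · rw [hfe2]; exact heS
          · intro x hx
            obtain ⟨y, hy, rfl⟩ := Finset.mem_image.1 hx
            rw [Finset.mem_erase] at hy
            have h1 : y ≠ e := fun h' => heS (h' ▸ hy.2)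
            rw [Equiv.swap_apply_of_ne_of_ne h1 hy.1, Finset.mem_erase]
            exact ⟨h1, hy.2⟩
        · rw [Equiv.swap_apply_of_ne_of_ne hfe2 hfe] at hfS
          refine ⟨(S.erase e').image (Equiv.swap e e'), ⟨S.erase e', ⟨S, hS, hfS, rfl⟩, rfl⟩, ?_⟩
          intro x hx
          obtain ⟨y, hy, rfl⟩ := Finset.mem_image.1 hx
          rw [Finset.mem_erase] at hy
          have h1 : y ≠ e := fun h' => heS (h' ▸ hy.2)
          rw [Equiv.swap_apply_of_ne_of_ne h1 hy.1, Finset.mem_erase]
          exact ⟨h1, hy.2⟩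

end Pool.Agent.K4B
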