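import Pool.Agent.Lib_helper31.K4B.Part0
import Pool.Agent.Lib_helper31.K4B.Part1
import Pool.Agent.Lib_helper31.K4B.Part2
import Pool.Agent.Lib_helper31.K4B.Part3
import Pool.Agent.Lib_helper31.K4B.Part4
import Pool.Agent.Lib_helper31.K4B.Part5
import Pool.Agent.Lib_helper31.K4B.Part6
import Pool.Agent.Lib_helper31.K4B.Part7
import Pool.Agent.Lib_helper31.K4B.Part8
import Pool.Agent.Lib_helper31.K4B.Part9
import Pool.Agent.Lib_helper31.K4B.Part10
import Pool.Agent.Lib_helper31.K4B.Part11

/-!
The certificate is correct.
-/

namespace Pool.Agent.K4B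

theorem ok_all : OkV tab 8274 0 8274 := (((((((((((part0.trans part1).trans part2).trans part3).trans part4).trans part5).trans part6).trans part7).trans part8).trans part9).trans part10).trans part11)

end Pool.Agent.K4B
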