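import Pool.Agent.Lib_helper60.K4.Chk

/-!
The certificate checker: Breaker wins the `K_4` game on `K_9`.  Edge sets are masks: the edge `x y`
(`x < y < 9`) is the bit `9 * x + y`.  Everything is written with recursors and the accelerated
operations of `ℕ`, so that the kernel can evaluate it quickly.
-/

namespace Pool.Agent.K4B

open Pool.Agent.K4G (bt nib pmask)

/-- Header table: alive edges of Maker and alive free edges of each position. -/
inductive Tab : Type
  | leaf (a f : ℕ) : Tab
  | node (l r : Tab) : Tab

/-- The entry with index `j`, passed to the continuation `k`. -/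
noncomputable def tget (T : Tab) : ℕ → (ℕ → ℕ → Bool) → Bool :=
  Tab.rec (motive := fun _ => ℕ → (ℕ → ℕ → Bool) → Bool)
    (fun a f _ k => k a f)
    (fun _ _ ihl ihr j k => cond (Nat.beq (Nat.land j 1) 0) (ihl (Nat.shiftRight j 1) k)
      (ihr (Nat.shiftRight j 1) k)) T

/-- all edges -/
def UT : ℕ := 0x8060381e0f87e3f9fe

/-- the codes of the edges -/
def UL : List ℕ := [1, 2, 3, 4, 5, 6, 7, 8, 11, 12, 13, 14, 15, 16, 17, 21, 22, 23, 24, 25, 26, 31, 32, 33, 34, 35, 41, 42, 43, 44, 51, 52, 53, 61, 62, 71]

/-- the masks of the `126` copies of `K_4` -/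
def Ks : List ℕ := [
  0x20180e, 0x402816, 0x804826, 0x1008846,
  0x2010886, 0x4020906, 0x8000301a, 0x10000502a,
  0x20000904a, 0x40001108a, 0x80002110a, 0x20000006032,
  0x4000000a052, 0x80000012092, 0x100000022112, 0x800000000c062,
  0x100000000140a2, 0x20000000024122, 0x20000000000180c2, 0x4000000000028142,
  0x800000000000030182, 0x8060001c, 0x100a0002c, 0x20120004c,
  0x40220008c, 0x80420010c, 0x20000c00034, 0x40001400054,
  0x80002400094, 0x100004400114, 0x8000001800064, 0x100000028000a4,
  0x20000004800124, 0x20000000030000c4, 0x4000000005000144, 0x800000000006000184,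
  0x20180000038, 0x40280000058, 0x80480000098, 0x100880000118,
  0x8000300000068, 0x100005000000a8, 0x20000900000128, 0x20000006000000c8,
  0x4000000a00000148, 0x800000000c00000188, 0x8060000000070, 0x100a00000000b0,
  0x20120000000130, 0x20000c00000000d0, 0x4000140000000150, 0x800000180000000190,
  0x20180000000000e0, 0x4028000000000160, 0x8000300000000001a0, 0x8060000000000001c0,
  0x80603800, 0x100a05800, 0x201209800, 0x402211800,
  0x804221800, 0x20000c06800, 0x4000140a800, 0x80002412800,
  0x100004422800, 0x800000180c800, 0x10000002814800, 0x20000004824800,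
  0x2000000003018800, 0x4000000005028800, 0x800000000006030800, 0x20180007000,
  0x4028000b000, 0x80480013000, 0x100880023000, 0x800030000d000,
  0x10000500015000, 0x20000900025000, 0x2000000600019000, 0x4000000a00029000,
  0x800000000c00031000, 0x806000000e000, 0x100a0000016000, 0x20120000026000,
  0x20000c000001a000, 0x400014000002a000, 0x800000180000032000, 0x201800000001c000,
  0x402800000002c000, 0x800030000000034000, 0x806000000000038000, 0x20180e00000,
  0x40281600000, 0x80482600000, 0x100884600000, 0x8000301a00000,
  0x10000502a00000, 0x20000904a00000, 0x2000000603200000, 0x4000000a05200000,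
  0x800000000c06200000, 0x8060001c00000, 0x100a0002c00000, 0x20120004c00000,
  0x20000c0003400000, 0x4000140005400000, 0x800000180006400000, 0x2018000003800000,
  0x4028000005800000, 0x800030000006800000, 0x806000000007000000, 0x8060380000000,
  0x100a0580000000, 0x20120980000000, 0x20000c0680000000, 0x4000140a80000000,
  0x800000180c80000000, 0x2018000700000000, 0x4028000b00000000, 0x800030000d00000000,
  0x806000000e00000000, 0x20180e0000000000, 0x4028160000000000, 0x8000301a0000000000,
  0x8060001c0000000000, 0x806038000000000000]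

/-- the mask of the edge `c` -/
def on (c : ℕ) : ℕ := Nat.shiftLeft 1 c

/-- `M` without `A` -/
def sdf (M A : ℕ) : ℕ := Nat.xor M (Nat.land M A)

/-- dead edges of an entry -/
def dead (a f : ℕ) : ℕ := sdf UT (Nat.lor a f)

/-- at least `2` to the number of bits of `m`, if this number is at most `6` -/
noncomputable def pw (fuel : ℕ) : ℕ → ℕ :=
  Nat.rec (motive := fun _ => ℕ → ℕ) (fun m => cond (Nat.beq m 0) 1 64)
    (fun _ ih m => cond (Nat.beq m 0) 1 (Nat.mul 2 (ih (Nat.xor m (on (Nat.log2 m)))))) fuel

/-- the alive lines, each with its weight in the bits from `81` on -/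
noncomputable def alv (A W : ℕ) (L : List ℕ) : List ℕ → (List ℕ → Bool) → Bool :=
  List.rec (motive := fun _ => List ℕ → (List ℕ → Bool) → Bool)
    (fun acc k => k acc)
    (fun K _ ih acc k => cond (Nat.beq (Nat.land K W) 0)
      (ih (Nat.lor K (Nat.shiftLeft (pw 6 (Nat.land K A)) 81) :: acc) k) (ih acc k)) L

/-- all elements of a list pass the test -/
noncomputable def allL (t : ℕ → Bool) (L : List ℕ) : Bool :=
  List.rec (motive := fun _ => Bool) true (fun K _ ih => cond (t K) ih false) L

/-- some element of a list passes the test -/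
noncomputable def anyL (t : ℕ → Bool) (L : List ℕ) : Bool :=
  List.rec (motive := fun _ => Bool) false (fun K _ ih => cond (t K) true ih) L

/-- a line contains one of the pairs `qs` -/
noncomputable def cov (qs : List ℕ) (K : ℕ) : Bool :=
  anyL (fun q => Nat.beq (Nat.land K q) q) qs

/-- potential (times `64`) after the moves with masks `eb`, `fb` and the pairs `qs` with union `P` -/
noncomputable def pot (eb fb P : ℕ) (qs : List ℕ) (L : List ℕ) : ℕ :=
  List.rec (motive := fun _ => ℕ) 0
    (fun K _ ih => cond (Nat.beq (Nat.land K fb) 0)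
      (cond (cov qs K) ih
        (Nat.add (Nat.mul (Nat.mul (Nat.shiftRight K 81) (pw 6 (Nat.land K P)))
          (cond (Nat.beq (Nat.land K eb) 0) 1 2)) ih)) ih) L

/-- code of the edge with ends `x`, `y` -/
def cdu (x y : ℕ) : ℕ := cond (Nat.ble x y) (Nat.add (Nat.mul 9 x) y) (Nat.add (Nat.mul 9 y) x)

/-- image of the edge `c` under the permutation `p` -/
def img (p c : ℕ) : ℕ := cdu (nib p (Nat.div c 9)) (nib p (Nat.mod c 9))

/-- image of the mask `M` under the permutation `p` -/
noncomputable def rel (p M : ℕ) (L : List ℕ) : ℕ :=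
  List.rec (motive := fun _ => ℕ) 0
    (fun c _ ih => cond (bt M c) (Nat.lor (on (img p c)) ih) ih) L

/-- link test for one line `K` -/
noncomputable def lnk1 (fb AP as ws X : ℕ) (qs : List ℕ) (K : ℕ) : Bool :=
  cond (Nat.beq (Nat.land K fb) 0)
    (cond (Nat.beq (Nat.land K X) 0) true
      (cond (cov qs K) true
        ((fun Y => anyL (fun K2 => Nat.beq (Nat.land K2 Y) 0) Ks)
          (Nat.lor ws (sdf (sdf UT as) (sdf K AP)))))) true

/-- link to the entry `j` with the permutation `p` -/
noncomputable def lnk (T : Tab) (j0 n j p fb AP : ℕ) (qs L : List ℕ) : Bool :=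
  cond (Nat.ble (Nat.succ j0) j) (cond (Nat.ble (Nat.succ j) n)
    (cond (Nat.beq (pmask p 9) 511)
      (tget T j (fun a f =>
        (fun as fs =>
          (fun ws => allL (lnk1 fb AP as ws (Nat.lor ws (sdf AP as)) qs) L)
            (sdf UT (Nat.lor as fs)))
          (rel p a UL) (rel p f UL))) false) false) false

/-- reads `m` pairs from the byte stream; `A1` are the edges of Maker -/
noncomputable def prs (A1 : ℕ) (m : ℕ) : ℕ → ℕ → List ℕ → (ℕ → ℕ → List ℕ → Bool) → Bool :=
  Nat.rec (motive := fun _ => ℕ → ℕ → List ℕ → (ℕ → ℕ → List ℕ → Bool) → Bool)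
    (fun s P qs k => k s P qs)
    (fun _ ih s P qs k =>
      (fun x y =>
        (fun q =>
          cond (bt UT x) (cond (bt UT y) (cond (Nat.beq x y) false
            (cond (Nat.beq (Nat.land q (Nat.lor A1 P)) 0)
              (ih (Nat.shiftRight s 16) (Nat.lor P q) (q :: qs) k) false)) false) false)
          (Nat.lor (on x) (on y)))
        (Nat.land s 255) (Nat.land (Nat.shiftRight s 8) 255)) m

/-- records of an entry, read from the byte stream `s`; the set of treated moves is passed to `k` -/
noncomputable def recs (T : Tab) (j0 n A : ℕ) (L : List ℕ) (fuel : ℕ) :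
    ℕ → ℕ → (ℕ → Bool) → Bool :=
  Nat.rec (motive := fun _ => ℕ → ℕ → (ℕ → Bool) → Bool)
    (fun _ _ _ => false)
    (fun _ ih s C k =>
      (fun e f h =>
        cond (Nat.beq e 0) (k C)
          (cond (bt UT e) (cond (bt UT f) (cond (Nat.beq e f) false
            (cond (bt A f) false
              (prs (Nat.lor A (on e)) (Nat.shiftRight h 1) (Nat.shiftRight s 24) 0 []
                (fun s1 P qs =>
                  cond (Nat.beq (Nat.land h 1) 0)
                    (cond (Nat.ble (Nat.succ (pot (on e) (on f) P qs L)) 32)
                      (ih s1 (Nat.lor C (on e)) k) false)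
                    (cond (lnk T j0 n (Nat.land s1 65535)
                        (Nat.land (Nat.shiftRight s1 16) 0xFFFFFFFFFF)
                        (on f) (Nat.lor (Nat.lor A (on e)) P) qs L)
                      (ih (Nat.shiftRight s1 56) (Nat.lor C (on e)) k) false))))) false) false))
        (Nat.land s 255) (Nat.land (Nat.shiftRight s 8) 255)
        (Nat.land (Nat.shiftRight s 16) 255)) fuel

/-- intersection of the lines which contain the edge `c` -/
noncomputable def inter (cb : ℕ) (L : List ℕ) : ℕ :=
  List.rec (motive := fun _ => ℕ) UT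
    (fun K _ ih => cond (Nat.beq (Nat.land K cb) 0) ih (Nat.land K ih)) L

/-- the edge `c` needs no treatment: treated, or Maker's, or in no alive line, or dominated -/
noncomputable def domi (A C : ℕ) (L : List ℕ) (c : ℕ) : Bool :=
  cond (bt (Nat.lor A C) c) true
    (cond (Nat.beq (Nat.land (inter (on c) L) (sdf C A)) 0)
      (allL (fun K => Nat.beq (Nat.land K (on c)) 0) L) true)

/-- check of the entry `j0` with body `s` -/
noncomputable def chk (T : Tab) (n j0 s : ℕ) : Bool :=
  tget T j0 (fun a f =>
    (fun W =>
      alv a W Ks [] (fun L =>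
        cond (allL (fun K => cond (Nat.beq (sdf (Nat.land K UT) a) 0) false true) L)
          (recs T j0 n a L 64 s 0 (fun C => allL (domi a C L) UL)) false))
      (dead a f))

/-- check of consecutive entries -/
noncomputable def chkL (T : Tab) (n : ℕ) (l : List ℕ) : ℕ → Bool :=
  List.rec (motive := fun _ => ℕ → Bool) (fun _ => true)
    (fun s _ ih j => cond (chk T n j s) (ih (Nat.succ j)) false) l

end Pool.Agent.K4B
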