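import Pool.Agent.Lib_helper31.K4B.SoundV

/-!
From the abstract game to the `K_4` game on `K_N` for `N ≤ 9`.
-/

namespace Pool.Agent.K4B

open Pool.Agent.K4G (FirstWins Free K4 owns_iff)

/-- every line on the vertices of `K_N` without edge of `B` contains outside of `A` a set of `F`;
`g` are the names of the vertices in `K_9` -/
def DomN {N : ℕ} (g : Fin N → Fin 9) (F : Set (Finset E9)) (A B : Finset (Sym2 (Fin N))) : Prop :=
  ∀ S : Finset (Fin N), S.card = 4 → (∀ x ∈ S, ∀ y ∈ S, x ≠ y → s(x, y) ∉ B) →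
    ∃ T ∈ F, ∀ e ∈ T, ∃ x ∈ S, ∃ y ∈ S, x ≠ y ∧ e = s(g x, g y) ∧ s(x, y) ∉ A

theorem no_winN {N : ℕ} {g : Fin N → Fin 9} (hg : Function.Injective g)
    {A B : Finset (Sym2 (Fin N))} (h : FirstWins (⊤ : SimpleGraph (Fin 4)) A B) :
    Disjoint A B → ∀ F : Set (Finset E9), BW F → DomN g F A B → False := by
  have hinj : Function.Injective (Sym2.map g) := Sym2.map.injective hg
  induction h with
  | @now A B e he hw =>
    intro hAB F hF hd
    obtain ⟨S, hS, hall⟩ := (owns_iff _).1 hw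
    obtain ⟨T, hT, hTS⟩ := hd S hS (by
      intro x hx y hy hxy hB
      have h1 := hall x hx y hy hxy
      rcases Finset.mem_insert.1 h1 with h1 | h1
      · rw [h1] at hB; exact he.2.2 hB
      · exact Finset.disjoint_left.1 hAB h1 hB)
    have hsub : ∀ e' ∈ T, e' = Sym2.map g e := by
      intro e' he'
      obtain ⟨x, hx, y, hy, hxy, rfl, h2⟩ := hTS e' he'
      rcases Finset.mem_insert.1 (hall x hx y hy hxy) with h3 | h3
      · rw [← h3]; rfl
      · exact absurd h3 h2
    have hne : T ≠ ∅ := fun h' => hF.zero (h' ▸ hT)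
    obtain ⟨e', he'⟩ := Finset.nonempty_iff_ne_empty.2 hne
    have heT : Sym2.map g e ∈ T := by rw [← hsub e' he']; exact he'
    obtain ⟨f, hfe, hf⟩ := hF.reply ⟨T, hT, heT⟩
    apply hf.zero
    refine ⟨T, hT, fun h' => hfe (hsub f h'), ?_⟩
    symm
    rw [Finset.eq_empty_iff_forall_notMem]
    intro x hx
    rw [Finset.mem_erase] at hx
    exact hx.1 (hsub x hx.2)
  | @step A B e he hex hno hall ih =>
    intro hAB F hF hd
    have hdis : ∀ f, Free (insert e A) B f → Disjoint (insert e A) (insert f B) := by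
      intro f hf
      rw [Finset.disjoint_insert_left, Finset.disjoint_insert_right]
      refine ⟨?_, ?_, hAB⟩
      · rw [Finset.mem_insert, not_or]
        exact ⟨fun h' => hf.2.1 (h' ▸ Finset.mem_insert_self _ _), he.2.2⟩
      · intro h'
        exact hf.2.1 (Finset.mem_insert_of_mem h')
    by_cases hm : ∃ T ∈ F, Sym2.map g e ∈ T
    · obtain ⟨f, hfe, hf⟩ := hF.reply hm
      obtain ⟨f', hf', hff'⟩ : ∃ f', Free (insert e A) B f' ∧
          ∀ h, Free (insert e A) B h → f = Sym2.map g h → f' = h := by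
        by_cases hff : ∃ h, Free (insert e A) B h ∧ f = Sym2.map g h
        · obtain ⟨h, h1, rfl⟩ := hff
          exact ⟨h, h1, fun h' _ h2 => hinj h2⟩
        · obtain ⟨f', hf'⟩ := hex
          exact ⟨f', hf', fun h h1 h2 => absurd ⟨h, h1, h2⟩ hff⟩
      apply ih f' hf' (hdis f' hf') _ hf
      intro S hS hSB
      obtain ⟨T, hT, hTS⟩ := hd S hS (fun x hx y hy hxy h' =>
        hSB x hx y hy hxy (Finset.mem_insert_of_mem h'))
      refine ⟨T.erase (Sym2.map g e), ⟨T, hT, ?_, rfl⟩, ?_⟩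
      · intro hfT
        obtain ⟨x, hx, y, hy, hxy, h1, h2⟩ := hTS f hfT
        have h3 := hSB x hx y hy hxy
        rw [Finset.mem_insert, not_or] at h3
        have hfree : Free (insert e A) B s(x, y) := by
          refine ⟨by rw [Sym2.mk_isDiag_iff]; exact hxy, ?_, h3.2⟩
          rw [Finset.mem_insert, not_or]
          refine ⟨?_, h2⟩
          rintro rfl
          exact hfe h1
        exact h3.1 (hff' _ hfree h1).symm
      · intro e' he'
        rw [Finset.mem_erase] at he'
        obtain ⟨x, hx, y, hy, hxy, h1, h2⟩ := hTS e' he'.2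
        refine ⟨x, hx, y, hy, hxy, h1, ?_⟩
        rw [Finset.mem_insert, not_or]
        refine ⟨?_, h2⟩
        rintro rfl
        exact he'.1 h1
    · obtain ⟨f', hf'⟩ := hex
      apply ih f' hf' (hdis f' hf') F hF
      intro S hS hSB
      obtain ⟨T, hT, hTS⟩ := hd S hS (fun x hx y hy hxy h' =>
        hSB x hx y hy hxy (Finset.mem_insert_of_mem h'))
      refine ⟨T, hT, ?_⟩
      intro e' he'
      obtain ⟨x, hx, y, hy, hxy, h1, h2⟩ := hTS e' he'
      refine ⟨x, hx, y, hy, hxy, h1, ?_⟩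
      rw [Finset.mem_insert, not_or]
      refine ⟨?_, h2⟩
      rintro rfl
      exact hm ⟨T, hT, by rw [Sym2.map_mk, ← h1]; exact he'⟩

/-- the first player cannot force a win on `K_N` for `N ≤ 9` -/
theorem not_firstV {T : Tab} {n : ℕ} (h : OkV T n 0 n) (hn : 0 < n) (h0 : hdr T 0 = (0, UT))
    {N : ℕ} (hN : N ≤ 9) :
    ¬ FirstWins (⊤ : SimpleGraph (Fin 4)) (∅ : Finset (Sym2 (Fin N))) ∅ := by
  intro hw
  have hg := goodV h 0 hn
  unfold GoodE at hg
  rw [h0] at hg
  have hinj : Function.Injective (Fin.castLE hN) := Fin.castLE_injective hN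
  apply no_winN hinj hw (Finset.disjoint_empty_left _) _ hg
  intro S hS _
  set S' : Finset (Fin 9) := S.map ⟨Fin.castLE hN, hinj⟩ with hS'
  refine ⟨ds (mk S') \ ds 0, ⟨mk S', mk_mem S' ?_, ?_, rfl⟩, ?_⟩
  · rw [Finset.mem_powersetCard]
    exact ⟨Finset.subset_univ _, by rw [hS', Finset.card_map, hS]⟩
  · intro e _ h'
    unfold dead at h'
    rw [ds_sdf, ds_lor, Finset.mem_sdiff, Finset.mem_union] at h'
    exact h'.2 (Or.inr h'.1)
  · intro e he
    rw [Finset.mem_sdiff] at he
    have h1 := he.1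
    induction e using Sym2.ind with | _ x y => ?_
    rw [mem_ds_mk] at h1
    obtain ⟨hxy, hx, hy⟩ := h1
    rw [hS', Finset.mem_map] at hx hy
    obtain ⟨x', hx', rfl⟩ := hx
    obtain ⟨y', hy', rfl⟩ := hy
    exact ⟨x', hx', y', hy', fun h' => hxy (by rw [h']), rfl, by simp⟩

end Pool.Agent.K4B
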