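import Pool.Agent.Lib_helper31.K4B.Abs

/-!
The Erdős-Selfridge potential.
-/

namespace Pool.Agent.K4B

variable {V : Type*} [DecidableEq V]

/-- the potential of a list of sets -/
def wt (L : List (Finset V)) : ℚ := (L.map fun S => (1 / 2 : ℚ) ^ S.card).sum

omit [DecidableEq V] in
theorem wt_nil : wt ([] : List (Finset V)) = 0 := rfl

omit [DecidableEq V] in
theorem wt_cons (S : Finset V) (L : List (Finset V)) : wt (S :: L) = (1 / 2) ^ S.card + wt L := by
  simp [wt]

omit [DecidableEq V] in
theorem wt_nonneg (L : List (Finset V)) : 0 ≤ wt L := by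
  induction L with
  | nil => simp [wt_nil]
  | cons S L ih => rw [wt_cons]; positivity

omit [DecidableEq V] in
theorem le_wt {L : List (Finset V)} {S : Finset V} (h : S ∈ L) : (1 / 2 : ℚ) ^ S.card ≤ wt L := by
  induction L with
  | nil => simp at h
  | cons T L ih =>
    rw [wt_cons]
    have hp : (0 : ℚ) ≤ (1 / 2 : ℚ) ^ T.card := by positivity
    rcases List.mem_cons.1 h with rfl | h
    · linarith [wt_nonneg L]
    · linarith [ih h]

omit [DecidableEq V] in
theorem zero_notMem {L : List (Finset V)} (h : wt L < 1) : ∅ ∉ L := by
  intro h'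
  have := le_wt h'
  simp at this
  linarith

/-- weight of the sets which contain `e` -/
def wf (e : V) (L : List (Finset V)) : ℚ := wt (L.filter (fun S => e ∈ S))

theorem wf_nonneg (e : V) (L : List (Finset V)) : 0 ≤ wf e L := wt_nonneg _

theorem wt_filter (f : V) (L : List (Finset V)) :
    wt (L.filter (fun S => f ∉ S)) = wt L - wf f L := by
  induction L with
  | nil => simp [wt_nil, wf]
  | cons S L ih =>
    unfold wf at ih ⊢
    by_cases h : f ∈ S
    · simp only [List.filter_cons, h, not_true_eq_false, decide_false, decide_true, if_true,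
        Bool.false_eq_true, if_false, wt_cons, ih]
      ring
    · simp only [List.filter_cons, h, not_false_eq_true, decide_false, decide_true, if_true,
        Bool.false_eq_true, if_false, wt_cons, ih]
      ring

theorem wt_erase (e : V) (L : List (Finset V)) :
    wt (L.map (fun S => S.erase e)) = wt L + wf e L := by
  induction L with
  | nil => simp [wt_nil, wf]
  | cons S L ih =>
    unfold wf at ih ⊢
    by_cases h : e ∈ S
    · simp only [List.map_cons, List.filter_cons, h, decide_true, if_true, wt_cons, ih,
        Finset.card_erase_of_mem h]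
      have h1 : 0 < S.card := Finset.card_pos.2 ⟨e, h⟩
      obtain ⟨k, hk⟩ : ∃ k, S.card = k + 1 := ⟨S.card - 1, by omega⟩
      rw [hk]
      simp only [Nat.add_sub_cancel, pow_succ]
      ring
    · simp only [List.map_cons, List.filter_cons, h, decide_false, Bool.false_eq_true, if_false,
        wt_cons, ih, Finset.erase_eq_of_notMem h]
      ring

theorem wf_filter_le (e f : V) (L : List (Finset V)) :
    wf e (L.filter (fun S => f ∉ S)) ≤ wf e L := by
  induction L with
  | nil => simp [wf]
  | cons S L ih =>
    unfold wf at ih ⊢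
    have hp : (0 : ℚ) ≤ (1 / 2 : ℚ) ^ S.card := by positivity
    by_cases h : f ∈ S
    · by_cases h2 : e ∈ S
      · simp only [List.filter_cons, h, h2, not_true_eq_false, decide_false, decide_true, if_true,
          Bool.false_eq_true, if_false, wt_cons]
        linarith
      · simp only [List.filter_cons, h, h2, not_true_eq_false, decide_false,
          Bool.false_eq_true, if_false]
        exact ih
    · by_cases h2 : e ∈ S
      · simp only [List.filter_cons, h, h2, not_false_eq_true, decide_true, if_true,
          wt_cons]
        linarith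
      · simp only [List.filter_cons, h, h2, not_false_eq_true, decide_false, decide_true, if_true,
          Bool.false_eq_true, if_false]
        exact ih

/-- Breaker to move with potential less than `1`: Breaker has a winning move. -/
theorem breaker_first [Nontrivial V] [Inhabited V] : ∀ (n : ℕ) (X : Finset V), X.card = n → ∀ L : List (Finset V),
    (∀ S ∈ L, S ⊆ X) → wt L < 1 → ∃ f, BW {S | S ∈ L ∧ f ∉ S} := by
  intro n
  induction n with
  | zero =>
    intro X hX L hL hw
    rw [Finset.card_eq_zero] at hX
    subst hX
    refine ⟨default, BW.of ?_ ?_⟩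
    · rintro ⟨h, _⟩; exact zero_notMem hw h
    · rintro e ⟨S, ⟨hS, _⟩, he⟩
      have := hL S hS he
      simp at this
  | succ n ih =>
    intro X hX L hL hw
    have hne : X.Nonempty := by rw [← Finset.card_pos, hX]; omega
    obtain ⟨f, hf, hmax⟩ := Finset.exists_max_image X (fun f => wf f L) hne
    refine ⟨f, BW.of ?_ ?_⟩
    · rintro ⟨h, _⟩; exact zero_notMem hw h
    · rintro e ⟨S, ⟨hS, _⟩, he⟩
      have heX : e ∈ X := hL S hS he
      have hX' : (X.erase e).card = n := by
        rw [Finset.card_erase_of_mem heX, hX]; rfl
      obtain ⟨f2, hf2⟩ := ih (X.erase e) hX' ((L.filter (fun S => f ∉ S)).map (fun S => S.erase e))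
        (by
          intro T hT
          obtain ⟨S, hS, rfl⟩ := List.mem_map.1 hT
          exact Finset.erase_subset_erase e (hL S (List.mem_of_mem_filter hS)))
        (by
          rw [wt_erase, wt_filter]
          have h1 := wf_filter_le e f L
          have h2 := hmax e heX
          linarith)
      obtain ⟨e1, he1⟩ := exists_ne e
      refine ⟨if f2 = e then e1 else f2, ?_, ?_⟩
      · split_ifs with h
        · exact he1
        · exact h
      · refine hf2.mono X ?_ ?_
        · rintro T ⟨S, ⟨hS, _⟩, _, rfl⟩
          exact (Finset.erase_subset _ _).trans (hL S hS)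
        · rintro T ⟨S, ⟨hS, hfS⟩, hf3, rfl⟩
          refine ⟨S.erase e, ⟨List.mem_map.2 ⟨S, List.mem_filter.2 ⟨hS, by simpa using hfS⟩, rfl⟩,
            ?_⟩, subset_rfl⟩
          split_ifs at hf3 with h
          · rw [h]; simp
          · intro h'
            exact hf3 (Finset.mem_of_mem_erase h')

/-- Maker to move with potential less than `1/2`. -/
theorem BW.pot [Nontrivial V] [Inhabited V] {L : List (Finset V)} (X : Finset V) (hL : ∀ S ∈ L, S ⊆ X) (hw : wt L < 1 / 2) :
    BW {S | S ∈ L} := by
  refine BW.of (zero_notMem (by linarith)) ?_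
  rintro e ⟨S, hS, he⟩
  obtain ⟨f2, hf2⟩ := breaker_first _ X rfl (L.map (fun S => S.erase e))
    (by
      intro T hT
      obtain ⟨S, hS, rfl⟩ := List.mem_map.1 hT
      exact (Finset.erase_subset _ _).trans (hL S hS))
    (by
      rw [wt_erase]
      have h1 : wf e L ≤ wt L := by
        have := wt_filter e L
        have := wt_nonneg (L.filter (fun S => e ∉ S))
        linarith
      linarith)
  obtain ⟨e1, he1⟩ := exists_ne e
  refine ⟨if f2 = e then e1 else f2, ?_, ?_⟩
  · split_ifs with h
    · exact he1
    · exact h
  · refine hf2.mono X ?_ ?_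
    · rintro T ⟨S, hS, _, rfl⟩
      exact (Finset.erase_subset _ _).trans (hL S hS)
    · rintro T ⟨S, hS, hf3, rfl⟩
      refine ⟨S.erase e, ⟨List.mem_map.2 ⟨S, hS, rfl⟩, ?_⟩, subset_rfl⟩
      split_ifs at hf3 with h
      · rw [h]; simp
      · intro h'
        exact hf3 (Finset.mem_of_mem_erase h')

end Pool.Agent.K4B
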