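import Pool.Agent.Lib_helper31.K4B.Chk
import Pool.Agent.Lib_helper31.K4B.Pot
import Pool.Agent.Lib_helper60.K4.Rep

/-!
Edge sets of `K_9` represented by masks.
-/

namespace Pool.Agent.K4B

open Pool.Agent.K4G (bt nib pmask bt_eq tb_lor tb_land tb_xor tb_shl cond_ff beq_true ble_true
  perm_sound)

/-- the edges of `K_9` -/
abbrev E9 := Sym2 (Fin 9)

/-- code of an edge -/
def code : E9 → ℕ :=
  Sym2.lift ⟨fun x y => 9 * min (x : ℕ) (y : ℕ) + max (x : ℕ) (y : ℕ), fun x y => by
    simp only [min_comm (x : ℕ) y, max_comm (x : ℕ) y]⟩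

theorem code_mk (x y : Fin 9) : code s(x, y) = 9 * min (x : ℕ) (y : ℕ) + max (x : ℕ) (y : ℕ) := rfl

theorem code_inj : Function.Injective code := by
  intro e e' h
  induction e using Sym2.ind with | _ x y => ?_
  induction e' using Sym2.ind with | _ z w => ?_
  rw [code_mk, code_mk] at h
  have hx := x.2
  have hy := y.2
  have hz := z.2
  have hw := w.2
  rw [Sym2.eq_iff, Fin.ext_iff, Fin.ext_iff, Fin.ext_iff, Fin.ext_iff]
  omega

/-- the edges in a mask -/
def ds (m : ℕ) : Finset E9 := Finset.univ.filter (fun e => m.testBit (code e) = true)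

theorem mem_ds {m : ℕ} {e : E9} : e ∈ ds m ↔ m.testBit (code e) = true := by
  simp [ds]

theorem tb_on (c i : ℕ) : (on c).testBit i = decide (c = i) := tb_shl c i

theorem tb_sdf (M A i : ℕ) : (sdf M A).testBit i = (M.testBit i && !A.testBit i) := by
  have h : sdf M A = Nat.xor M (Nat.land M A) := rfl
  rw [h, tb_xor, tb_land]
  cases M.testBit i <;> cases A.testBit i <;> rfl

theorem ds_lor (a b : ℕ) : ds (Nat.lor a b) = ds a ∪ ds b := by
  ext e; rw [Finset.mem_union, mem_ds, mem_ds, mem_ds, tb_lor, Bool.or_eq_true]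

theorem ds_sdf (a b : ℕ) : ds (sdf a b) = ds a \ ds b := by
  ext e; rw [Finset.mem_sdiff, mem_ds, mem_ds, mem_ds, tb_sdf]; simp

/-- `e` is the edge with code `c` -/
theorem ds_on (e : E9) : ds (on (code e)) = {e} := by
  ext e'
  rw [mem_ds, tb_on, Finset.mem_singleton, decide_eq_true_eq]
  constructor
  · intro h; exact (code_inj h).symm
  · rintro rfl; rfl

theorem land_zero {a b : ℕ} (h : Nat.beq (Nat.land a b) 0 = true) (i : ℕ) :
    ¬ (a.testBit i = true ∧ b.testBit i = true) := by
  intro ⟨h1, h2⟩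
  have h3 := beq_true h
  have h4 := tb_land a b i
  rw [h3, h1, h2, Nat.zero_testBit] at h4
  simp at h4

theorem land_ne {a b : ℕ} (h : Nat.beq (Nat.land a b) 0 = false) :
    ∃ i, a.testBit i = true ∧ b.testBit i = true := by
  by_contra hc
  push Not at hc
  have : Nat.land a b = 0 := by
    apply Nat.eq_of_testBit_eq
    intro i
    rw [tb_land, Nat.zero_testBit]
    by_cases h1 : a.testBit i = true
    · have := hc i h1
      simp only [Bool.not_eq_true] at this
      rw [this, Bool.and_false]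
    · simp only [Bool.not_eq_true] at h1
      rw [h1, Bool.false_and]
  rw [this] at h
  exact absurd h (by decide)

/-- all bits of `M` are codes of edges -/
def Sub (M : ℕ) : Prop := ∀ i, M.testBit i = true → ∃ e : E9, code e = i ∧ ¬ e.IsDiag

theorem bt_UT {c : ℕ} (h : bt UT c = true) : ∃ e : E9, code e = c ∧ ¬ e.IsDiag := by
  rw [bt_eq] at h
  have hc : c < 81 := by
    by_contra hc
    have : UT.testBit c = false := Nat.testBit_lt_two_pow (lt_of_lt_of_le (by decide : UT < 2 ^ 81)
      (Nat.pow_le_pow_right (by norm_num) (by omega)))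
    rw [this] at h
    exact absurd h (by decide)
  have key : ∀ c < 81, UT.testBit c = true → c / 9 < c % 9 := by decide
  have h1 := key c hc h
  have h2 : c % 9 < 9 := Nat.mod_lt _ (by norm_num)
  refine ⟨s(⟨c / 9, by omega⟩, ⟨c % 9, h2⟩), ?_, ?_⟩
  · rw [code_mk]
    simp only
    rw [min_eq_left h1.le, max_eq_right h1.le]
    omega
  · rw [Sym2.mk_isDiag_iff, Fin.ext_iff]
    simp only
    omega

theorem Sub_UT : Sub UT := fun i hi => bt_UT (by rw [bt_eq]; exact hi)

theorem UT_code {e : E9} (h : ¬ e.IsDiag) : UT.testBit (code e) = true := by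
  induction e using Sym2.ind with | _ x y => ?_
  rw [Sym2.mk_isDiag_iff] at h
  rw [code_mk]
  revert x y
  decide

theorem mem_UL {c : ℕ} : c ∈ UL ↔ UT.testBit c = true := by
  constructor
  · revert c; decide
  · intro h
    have hc : c < 81 := by
      by_contra hc
      have : UT.testBit c = false := Nat.testBit_lt_two_pow
        (lt_of_lt_of_le (by decide : UT < 2 ^ 81) (Nat.pow_le_pow_right (by norm_num) (by omega)))
      rw [this] at h
      exact absurd h (by decide)
    have key : ∀ c < 81, UT.testBit c = true → c ∈ UL := by decide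
    exact key c hc h

theorem allL_all {t : ℕ → Bool} : ∀ {L : List ℕ}, allL t L = true → ∀ K ∈ L, t K = true := by
  intro L
  induction L with
  | nil => intro _ K hK; simp at hK
  | cons a L ih =>
    intro h K hK
    obtain ⟨h1, h2⟩ := cond_ff (show cond (t a) (allL t L) false = true from h)
    rcases List.mem_cons.1 hK with rfl | hK
    · exact h1
    · exact ih h2 K hK

theorem anyL_any {t : ℕ → Bool} : ∀ {L : List ℕ}, anyL t L = true → ∃ K ∈ L, t K = true := by
  intro L
  induction L with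
  | nil => intro h; exact absurd (show false = true from h) (by decide)
  | cons a L ih =>
    intro h
    have h' : cond (t a) true (anyL t L) = true := h
    by_cases ha : t a = true
    · exact ⟨a, List.mem_cons_self, ha⟩
    · rw [Bool.not_eq_true] at ha
      rw [ha] at h'
      obtain ⟨K, hK, hKt⟩ := ih h'
      exact ⟨K, List.mem_cons_of_mem _ hK, hKt⟩

theorem anyL_none {t : ℕ → Bool} : ∀ {L : List ℕ}, anyL t L = false → ∀ K ∈ L, t K = false := by
  intro L
  induction L with
  | nil => intro _ K hK; simp at hK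
  | cons a L ih =>
    intro h K hK
    have h' : cond (t a) true (anyL t L) = false := h
    have ha : t a = false := by
      by_contra hc
      rw [Bool.not_eq_false] at hc
      rw [hc] at h'
      exact absurd (show true = false from h') (by decide)
    rw [ha] at h'
    rcases List.mem_cons.1 hK with rfl | hK
    · exact ha
    · exact ih h' K hK

theorem Ks_sub : ∀ K ∈ Ks, ∀ i, K.testBit i = true → UT.testBit i = true := by
  intro K hK i hi
  have h : ∀ K ∈ Ks, Nat.land K UT = K := by decide +kernel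
  have := tb_land K UT i
  rw [h K hK, hi] at this
  simpa using this.symm

/-! ### the lines are the sets of four vertices -/

/-- the mask of the edges inside `S` -/
def mk (S : Finset (Fin 9)) : ℕ :=
  UL.foldr (fun c acc => if (⟨c / 9 % 9, Nat.mod_lt _ (by norm_num)⟩ : Fin 9) ∈ S ∧
    (⟨c % 9, Nat.mod_lt _ (by norm_num)⟩ : Fin 9) ∈ S then Nat.lor acc (on c) else acc) 0

theorem tb_foldr (P : ℕ → Prop) [DecidablePred P] : ∀ (L : List ℕ) (i : ℕ),
    (L.foldr (fun c acc => if P c then Nat.lor acc (on c) else acc) 0).testBit i = true ↔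
      i ∈ L ∧ P i := by
  intro L i
  induction L with
  | nil => simp
  | cons a L ih =>
    rw [List.foldr_cons]
    split_ifs with h
    · rw [tb_lor, Bool.or_eq_true, ih, tb_on, decide_eq_true_eq, List.mem_cons]
      constructor
      · rintro (⟨h1, h2⟩ | rfl)
        · exact ⟨Or.inr h1, h2⟩
        · exact ⟨Or.inl rfl, h⟩
      · rintro ⟨rfl | h1, h2⟩
        · exact Or.inr rfl
        · exact Or.inl ⟨h1, h2⟩
    · rw [ih, List.mem_cons]
      constructor
      · rintro ⟨h1, h2⟩; exact ⟨Or.inr h1, h2⟩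
      · rintro ⟨rfl | h1, h2⟩
        · exact absurd h2 h
        · exact ⟨h1, h2⟩

theorem mem_ds_mk {S : Finset (Fin 9)} {x y : Fin 9} :
    s(x, y) ∈ ds (mk S) ↔ x ≠ y ∧ x ∈ S ∧ y ∈ S := by
  rw [mem_ds, mk, tb_foldr, mem_UL, code_mk]
  have hx := x.2
  have hy := y.2
  rcases lt_trichotomy (x : ℕ) (y : ℕ) with h | h | h
  · rw [min_eq_left h.le, max_eq_right h.le]
    have e1 : (⟨(9 * (x : ℕ) + y) / 9 % 9, Nat.mod_lt _ (by norm_num)⟩ : Fin 9) = x := by
      rw [Fin.ext_iff]; simp only; omega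
    have e2 : (⟨(9 * (x : ℕ) + y) % 9, Nat.mod_lt _ (by norm_num)⟩ : Fin 9) = y := by
      rw [Fin.ext_iff]; simp only; omega
    have hne : x ≠ y := fun h' => by rw [h'] at h; omega
    have h3 := UT_code (e := s(x, y)) (by rw [Sym2.mk_isDiag_iff]; exact hne)
    rw [code_mk, min_eq_left h.le, max_eq_right h.le] at h3
    rw [e1, e2]
    exact ⟨fun ⟨_, h1, h2⟩ => ⟨hne, h1, h2⟩, fun ⟨_, h1, h2⟩ => ⟨h3, h1, h2⟩⟩
  · have hxy : x = y := Fin.ext h
    subst hxy
    constructor
    · rintro ⟨h1, _⟩
      exfalso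
      obtain ⟨e, he, hd⟩ := Sub_UT _ h1
      rw [← code_mk] at he
      rw [code_inj he] at hd
      exact hd (by rw [Sym2.mk_isDiag_iff])
    · rintro ⟨h1, _⟩; exact absurd rfl h1
  · rw [min_eq_right h.le, max_eq_left h.le]
    have e1 : (⟨(9 * (y : ℕ) + x) / 9 % 9, Nat.mod_lt _ (by norm_num)⟩ : Fin 9) = y := by
      rw [Fin.ext_iff]; simp only; omega
    have e2 : (⟨(9 * (y : ℕ) + x) % 9, Nat.mod_lt _ (by norm_num)⟩ : Fin 9) = x := by
      rw [Fin.ext_iff]; simp only; omega
    have hne : x ≠ y := fun h' => by rw [h'] at h; omega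
    have h3 := UT_code (e := s(x, y)) (by rw [Sym2.mk_isDiag_iff]; exact hne)
    rw [code_mk, min_eq_right h.le, max_eq_left h.le] at h3
    rw [e1, e2]
    exact ⟨fun ⟨_, h1, h2⟩ => ⟨hne, h2, h1⟩, fun ⟨_, h1, h2⟩ => ⟨h3, h2, h1⟩⟩

theorem mk_mem : ∀ S ∈ Finset.powersetCard 4 (Finset.univ : Finset (Fin 9)), mk S ∈ Ks := by
  decide +kernel

/-- the vertices of a mask -/
def vs (K : ℕ) : Finset (Fin 9) := Finset.univ.filter (fun x => ∃ y : Fin 9, x ≠ y ∧
  K.testBit (9 * min (x : ℕ) (y : ℕ) + max (x : ℕ) (y : ℕ)) = true)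

theorem Ks_mk : ∀ K ∈ Ks, (vs K).card = 4 ∧ mk (vs K) = K := by
  decide +kernel

end Pool.Agent.K4B
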