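import Pool.Agent.Lib_helper31.K4B.Rep

/-!
Families of lines, relabelling, pairs.
-/

namespace Pool.Agent.K4B

open Pool.Agent.K4G (bt nib pmask bt_eq tb_lor tb_land tb_xor tb_shl cond_ff beq_true ble_true
  perm_sound)

/-- the remaining parts of the lines: `a` is Maker's, `w` is dead -/
def fam (a w : ℕ) : Set (Finset E9) :=
  {S | ∃ K ∈ Ks, (∀ e ∈ ds K, e ∉ ds w) ∧ S = ds K \ ds a}

theorem ds_nd {K : ℕ} (hK : ∀ i, K.testBit i = true → UT.testBit i = true) {e : E9}
    (he : e ∈ ds K) : ¬ e.IsDiag := by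
  obtain ⟨e', h1, h2⟩ := Sub_UT _ (hK _ (mem_ds.1 he))
  rw [code_inj h1] at h2
  exact h2

/-! ### relabelling -/

theorem Ks_img (σ : Equiv.Perm (Fin 9)) {K : ℕ} (hK : K ∈ Ks) :
    ∃ K' ∈ Ks, ds K' = (ds K).image (Sym2.map σ) := by
  obtain ⟨h1, h2⟩ := Ks_mk K hK
  refine ⟨mk ((vs K).map σ.toEmbedding), mk_mem _ ?_, ?_⟩
  · rw [Finset.mem_powersetCard]
    exact ⟨Finset.subset_univ _, by rw [Finset.card_map, h1]⟩
  · ext e
    induction e using Sym2.ind with | _ x y => ?_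
    rw [mem_ds_mk, Finset.mem_image]
    constructor
    · rintro ⟨hxy, hx, hy⟩
      rw [Finset.mem_map_equiv] at hx hy
      refine ⟨s(σ.symm x, σ.symm y), ?_, ?_⟩
      · rw [← h2, mem_ds_mk]
        exact ⟨fun h => hxy (σ.symm.injective h), hx, hy⟩
      · rw [Sym2.map_mk]
        simp
    · rintro ⟨e, he, heq⟩
      induction e using Sym2.ind with | _ a b => ?_
      rw [← h2, mem_ds_mk] at he
      obtain ⟨hab, ha, hb⟩ := he
      rw [Sym2.map_mk, Sym2.eq_iff] at heq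
      rcases heq with ⟨rfl, rfl⟩ | ⟨rfl, rfl⟩
      · exact ⟨fun h => hab (σ.injective h), Finset.mem_map_of_mem _ ha, Finset.mem_map_of_mem _ hb⟩
      · exact ⟨fun h => hab (σ.injective h).symm, Finset.mem_map_of_mem _ hb,
          Finset.mem_map_of_mem _ ha⟩

theorem tb_rel (p M : ℕ) : ∀ (L : List ℕ) (i : ℕ), (rel p M L).testBit i = true ↔
    ∃ c ∈ L, M.testBit c = true ∧ img p c = i := by
  intro L i
  induction L with
  | nil =>
    have h : rel p M [] = 0 := rfl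
    rw [h]
    simp
  | cons a L ih =>
    have h : rel p M (a :: L) = cond (bt M a) (Nat.lor (on (img p a)) (rel p M L)) (rel p M L) := rfl
    rw [h, bt_eq]
    by_cases ha : M.testBit a = true
    · rw [ha, cond_true, tb_lor, Bool.or_eq_true, ih, tb_on, decide_eq_true_eq]
      constructor
      · rintro (h | ⟨c, hc, h1, h2⟩)
        · exact ⟨a, List.mem_cons_self, ha, h⟩
        · exact ⟨c, List.mem_cons_of_mem _ hc, h1, h2⟩
      · rintro ⟨c, hc, h1, h2⟩
        rcases List.mem_cons.1 hc with rfl | hc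
        · exact Or.inl h2
        · exact Or.inr ⟨c, hc, h1, h2⟩
    · rw [Bool.not_eq_true] at ha
      rw [ha, cond_false, ih]
      constructor
      · rintro ⟨c, hc, h1, h2⟩
        exact ⟨c, List.mem_cons_of_mem _ hc, h1, h2⟩
      · rintro ⟨c, hc, h1, h2⟩
        rcases List.mem_cons.1 hc with rfl | hc
        · rw [h1] at ha; exact absurd ha (by decide)
        · exact ⟨c, hc, h1, h2⟩

theorem cdu_eq (x y : ℕ) : cdu x y = 9 * min x y + max x y := by
  have h : cdu x y = cond (Nat.ble x y) (9 * x + y) (9 * y + x) := rfl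
  rw [h]
  by_cases hxy : x ≤ y
  · rw [Nat.ble_eq_true_of_le hxy, min_eq_left hxy, max_eq_right hxy]; rfl
  · have : Nat.ble x y = false := by
      by_contra hc
      rw [Bool.not_eq_false] at hc
      exact hxy (ble_true hc)
    rw [this, min_eq_right (by omega), max_eq_left (by omega)]; rfl

/-- `σ` is the permutation with nibbles `p` -/
def IsP (p : ℕ) (σ : Equiv.Perm (Fin 9)) : Prop := ∀ x : Fin 9, nib p x = (σ x : ℕ)

theorem exists_perm {p : ℕ} (h : Nat.beq (pmask p 9) 511 = true) : ∃ σ, IsP p σ := by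
  have h' : Nat.beq (Nat.succ (pmask p 9)) (Nat.shiftLeft 1 9) = true := by
    rw [beq_true h]; rfl
  obtain ⟨h1, h2⟩ := perm_sound h'
  have hinj : Function.Injective (fun x : Fin 9 => (⟨nib p x, h1 x x.2⟩ : Fin 9)) := by
    intro x y hxy
    rw [Fin.mk.injEq] at hxy
    exact Fin.ext (h2 x x.2 y y.2 hxy)
  exact ⟨Equiv.ofBijective _ (Finite.injective_iff_bijective.1 hinj), fun x => rfl⟩

theorem img_code {p : ℕ} {σ : Equiv.Perm (Fin 9)} (h : IsP p σ) {e : E9} :
    img p (code e) = code (Sym2.map σ e) := by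
  induction e using Sym2.ind with | _ x y => ?_
  have hx := x.2
  have hy := y.2
  have h0 : img p (code s(x, y)) =
    cdu (nib p (code s(x, y) / 9)) (nib p (code s(x, y) % 9)) := rfl
  rw [h0, Sym2.map_mk, code_mk, code_mk, cdu_eq, ← h x, ← h y]
  rcases le_total (x : ℕ) (y : ℕ) with hxy | hxy
  · rw [min_eq_left hxy, max_eq_right hxy]
    have e1 : (9 * (x : ℕ) + y) / 9 = x := by omega
    have e2 : (9 * (x : ℕ) + y) % 9 = y := by omega
    rw [e1, e2]
  · rw [min_eq_right hxy, max_eq_left hxy]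
    have e1 : (9 * (y : ℕ) + x) / 9 = y := by omega
    have e2 : (9 * (y : ℕ) + x) % 9 = x := by omega
    rw [e1, e2, min_comm, max_comm]

theorem map_inj (σ : Equiv.Perm (Fin 9)) : Function.Injective (Sym2.map σ : E9 → E9) :=
  Sym2.map.injective σ.injective

theorem map_nd {σ : Equiv.Perm (Fin 9)} {e : E9} (h : ¬ e.IsDiag) : ¬ (Sym2.map σ e).IsDiag := by
  induction e using Sym2.ind with | _ x y => ?_
  rw [Sym2.map_mk, Sym2.mk_isDiag_iff]
  rw [Sym2.mk_isDiag_iff] at h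
  exact fun h' => h (σ.injective h')

theorem mem_rel {p M : ℕ} {σ : Equiv.Perm (Fin 9)} (h : IsP p σ) {e : E9} (he : ¬ e.IsDiag) :
    Sym2.map σ e ∈ ds (rel p M UL) ↔ e ∈ ds M := by
  rw [mem_ds, tb_rel, mem_ds]
  constructor
  · rintro ⟨c, hc, h1, h2⟩
    obtain ⟨e', rfl, _⟩ := Sub_UT c (mem_UL.1 hc)
    rw [img_code h] at h2
    rw [← map_inj σ (code_inj h2)]
    exact h1
  · intro h1
    exact ⟨code e, mem_UL.2 (UT_code he), h1, img_code h⟩

/-- the relabelled family -/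
theorem fam_rel {p a f : ℕ} {σ : Equiv.Perm (Fin 9)} (h : IsP p σ)
    {K' : ℕ} (hK' : K' ∈ Ks)
    (hal : ∀ e ∈ ds K', e ∉ ds (sdf UT (Nat.lor (rel p a UL) (rel p f UL)))) :
    ∃ T ∈ fam a (dead a f), ds K' \ ds (rel p a UL) = T.image (Sym2.map σ) := by
  obtain ⟨K, hK, hKe⟩ := Ks_img σ.symm hK'
  have hKe' : ds K' = (ds K).image (Sym2.map σ) := by
    rw [hKe, Finset.image_image]
    have : (Sym2.map σ ∘ Sym2.map σ.symm : E9 → E9) = id := by
      funext e
      induction e using Sym2.ind with | _ x y => ?_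
      simp [Sym2.map_mk]
    rw [this, Finset.image_id]
  have hnd : ∀ e ∈ ds K, ¬ e.IsDiag := fun e he => ds_nd (Ks_sub K hK) he
  refine ⟨ds K \ ds a, ⟨K, hK, ?_, rfl⟩, ?_⟩
  · intro e he hd
    have h1 : Sym2.map σ e ∈ ds K' := by rw [hKe']; exact Finset.mem_image_of_mem _ he
    apply hal _ h1
    unfold dead at hd
    rw [ds_sdf, Finset.mem_sdiff, ds_lor, Finset.mem_union] at hd ⊢
    rw [mem_rel h (hnd e he), mem_rel h (hnd e he)]
    exact ⟨mem_ds.2 (UT_code (map_nd (hnd e he))), hd.2⟩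
  · rw [hKe']
    ext e
    rw [Finset.mem_sdiff, Finset.mem_image, Finset.mem_image]
    constructor
    · rintro ⟨⟨e', he', rfl⟩, h2⟩
      rw [mem_rel h (hnd e' he')] at h2
      exact ⟨e', Finset.mem_sdiff.2 ⟨he', h2⟩, rfl⟩
    · rintro ⟨e', he', rfl⟩
      rw [Finset.mem_sdiff] at he'
      refine ⟨⟨e', he'.1, rfl⟩, ?_⟩
      rw [mem_rel h (hnd e' he'.1)]
      exact he'.2

/-! ### pairs -/

section pairs
variable {V : Type*} [DecidableEq V] [Nontrivial V]

/-- the pair `{x, y}` removed -/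
def pr (x y : V) (F : Set (Finset V)) : Set (Finset V) :=
  {T | ∃ S ∈ F, ¬ (x ∈ S ∧ y ∈ S) ∧ T = (S.erase x).erase y}

theorem BW.pr {x y : V} (hxy : x ≠ y) {F : Set (Finset V)} (X : Finset V) (hX : ∀ S ∈ F, S ⊆ X)
    (h : BW (pr x y F)) : BW F := by
  refine h.pairs (π := Equiv.swap x y) (fun z => Equiv.swap_apply_self x y z) X hX ?_
  intro S hS
  by_cases hc : x ∈ S ∧ y ∈ S
  · left
    exact ⟨x, hc.1, by rw [Equiv.swap_apply_left]; exact hc.2,
      by rw [Equiv.swap_apply_left]; exact hxy.symm⟩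
  · right
    refine ⟨(S.erase x).erase y, ⟨S, hS, hc, rfl⟩,
      (Finset.erase_subset _ _).trans (Finset.erase_subset _ _), ?_⟩
    intro z hz
    rw [Finset.mem_erase, Finset.mem_erase] at hz
    exact Equiv.swap_apply_of_ne_of_ne hz.2.1 hz.1

/-- disjoint pairs -/
def Dj : List (V × V) → Prop
  | [] => True
  | p :: ps => p.1 ≠ p.2 ∧ (∀ q ∈ ps, p.1 ≠ q.1 ∧ p.1 ≠ q.2 ∧ p.2 ≠ q.1 ∧ p.2 ≠ q.2) ∧ Dj ps

/-- elements of the pairs -/
def els (ps : List (V × V)) : Finset V := (ps.map Prod.fst ++ ps.map Prod.snd).toFinset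

omit [Nontrivial V] in
theorem mem_els {ps : List (V × V)} {z : V} : z ∈ els ps ↔ ∃ p ∈ ps, z = p.1 ∨ z = p.2 := by
  unfold els
  rw [List.mem_toFinset, List.mem_append, List.mem_map, List.mem_map]
  constructor
  · rintro (⟨p, hp, rfl⟩ | ⟨p, hp, rfl⟩)
    · exact ⟨p, hp, Or.inl rfl⟩
    · exact ⟨p, hp, Or.inr rfl⟩
  · rintro ⟨p, hp, rfl | rfl⟩
    · exact Or.inl ⟨p, hp, rfl⟩
    · exact Or.inr ⟨p, hp, rfl⟩

theorem BW.pairList (X : Finset V) : ∀ (ps : List (V × V)), Dj ps → ∀ F : Set (Finset V),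
    (∀ S ∈ F, S ⊆ X) →
    BW {T | ∃ S ∈ F, (∀ p ∈ ps, ¬ (p.1 ∈ S ∧ p.2 ∈ S)) ∧ T = S \ els ps} → BW F := by
  intro ps
  induction ps with
  | nil =>
    intro _ F _ h
    convert h using 1
    ext T
    constructor
    · intro hT
      exact ⟨T, hT, by simp, by simp [els]⟩
    · rintro ⟨S, hS, _, rfl⟩
      simpa [els] using hS
  | cons p ps ih =>
    rintro ⟨h1, h2, h3⟩ F hF h
    apply BW.pr h1 X hF
    apply ih h3
    · rintro T ⟨S, hS, _, rfl⟩
      exact ((Finset.erase_subset _ _).trans (Finset.erase_subset _ _)).trans (hF S hS)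
    · refine h.mono X ?_ ?_
      · rintro T ⟨S1, ⟨S, hS, _, rfl⟩, _, rfl⟩
        exact Finset.sdiff_subset.trans
          (((Finset.erase_subset _ _).trans (Finset.erase_subset _ _)).trans (hF S hS))
      · rintro T ⟨S1, ⟨S, hS, hc, rfl⟩, hc2, rfl⟩
        refine ⟨S \ els (p :: ps), ⟨S, hS, ?_, rfl⟩, ?_⟩
        · intro q hq
          rcases List.mem_cons.1 hq with rfl | hq
          · exact hc
          · intro ⟨h4, h5⟩
            obtain ⟨a1, a2, a3, a4⟩ := h2 q hq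
            apply hc2 q hq
            simp only [Finset.mem_erase]
            exact ⟨⟨a3.symm, a1.symm, h4⟩, ⟨a4.symm, a2.symm, h5⟩⟩
        · intro z hz
          rw [Finset.mem_sdiff, mem_els] at hz ⊢
          obtain ⟨hz1, hz2⟩ := hz
          simp only [Finset.mem_erase]
          refine ⟨⟨?_, ?_, hz1⟩, ?_⟩
          · rintro rfl; exact hz2 ⟨p, List.mem_cons_self, Or.inr rfl⟩
          · rintro rfl; exact hz2 ⟨p, List.mem_cons_self, Or.inl rfl⟩
          · rintro ⟨q, hq, hzq⟩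
            exact hz2 ⟨q, List.mem_cons_of_mem _ hq, hzq⟩

end pairs

end Pool.Agent.K4B
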