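import Pool.Agent.Lib_helper31.K4B.Sem

/-!
Soundness of the checker.
-/

namespace Pool.Agent.K4B

open Pool.Agent.K4G (bt nib pmask bt_eq tb_lor tb_land tb_xor tb_shl cond_ff beq_true ble_true
  perm_sound)

/-! ### weights -/

theorem Ks_card : ∀ K ∈ Ks, (ds K).card = 6 := by decide +kernel

theorem log2_bit {m : ℕ} (h : m ≠ 0) : m.testBit (Nat.log2 m) = true := by
  rw [Nat.testBit_eq_decide_div_mod_eq, decide_eq_true_eq]
  have h1 : 2 ^ m.log2 ≤ m := Nat.log2_self_le h
  have h2 : m < 2 ^ (m.log2 + 1) := Nat.lt_log2_self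
  have h3 : m / 2 ^ m.log2 = 1 := by
    apply Nat.div_eq_of_lt_le
    · simpa using h1
    · rw [pow_succ] at h2; linarith
  rw [h3]

theorem pw_le : ∀ (fuel m : ℕ), (∀ i, m.testBit i = true → UT.testBit i = true) →
    (ds m).card ≤ fuel → 2 ^ (ds m).card ≤ pw fuel m := by
  intro fuel
  induction fuel with
  | zero =>
    intro m hm hc
    have h : pw 0 m = cond (Nat.beq m 0) 1 64 := rfl
    rw [h, Nat.le_zero.1 hc]
    cases Nat.beq m 0 <;> simp
  | succ n ih =>
    intro m hm hc
    have h : pw (n + 1) m = cond (Nat.beq m 0) 1 (Nat.mul 2 (pw n (Nat.xor m (on (Nat.log2 m))))) :=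
      rfl
    rw [h]
    by_cases h0 : m = 0
    · subst h0
      have : ds 0 = ∅ := by
        ext e; rw [mem_ds]; simp
      rw [this, Finset.card_empty]
      show 2 ^ 0 ≤ 1
      norm_num
    · have hb : Nat.beq m 0 = false := by
        by_contra hc'
        rw [Bool.not_eq_false] at hc'
        exact h0 (beq_true hc')
      rw [hb, cond_false]
      have hl := log2_bit h0
      obtain ⟨e, he, _⟩ := Sub_UT _ (hm _ hl)
      have hem : e ∈ ds m := by rw [mem_ds, he]; exact hl
      have hds : ds (Nat.xor m (on (Nat.log2 m))) = (ds m).erase e := by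
        ext e'
        rw [mem_ds, tb_xor, tb_on, Finset.mem_erase, mem_ds, ← he]
        by_cases hee : e' = e
        · subst hee
          rw [he, hl]
          simp
        · have : ¬ code e = code e' := fun h' => hee (code_inj h').symm
          simp [this, hee]
      have hcard : (ds m).card = ((ds m).erase e).card + 1 := by
        rw [Finset.card_erase_of_mem hem]
        have := Finset.card_pos.2 ⟨e, hem⟩
        omega
      have := ih (Nat.xor m (on (Nat.log2 m))) (by
        intro i hi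
        rw [tb_xor, tb_on] at hi
        by_cases hmi : m.testBit i = true
        · exact hm i hmi
        · rw [Bool.not_eq_true] at hmi
          rw [hmi, Bool.false_xor, decide_eq_true_eq] at hi
          rw [← hi]
          exact hm _ hl) (by rw [hds]; omega)
      rw [hds] at this
      rw [hcard, pow_succ]
      show _ ≤ 2 * _
      linarith

/-! ### alive lines -/

/-- the list computed by `alv` -/
noncomputable def alvL (A W : ℕ) (L acc : List ℕ) : List ℕ :=
  List.rec (motive := fun _ => List ℕ → List ℕ)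
    (fun acc => acc)
    (fun K _ ih acc => cond (Nat.beq (Nat.land K W) 0)
      (ih (Nat.lor K (Nat.shiftLeft (pw 6 (Nat.land K A)) 81) :: acc)) (ih acc)) L acc

theorem alv_eq (A W : ℕ) (k : List ℕ → Bool) : ∀ (L acc : List ℕ),
    alv A W L acc k = k (alvL A W L acc) := by
  intro L
  induction L with
  | nil => intro acc; rfl
  | cons K L ih =>
    intro acc
    have h1 : alv A W (K :: L) acc k = cond (Nat.beq (Nat.land K W) 0)
      (alv A W L (Nat.lor K (Nat.shiftLeft (pw 6 (Nat.land K A)) 81) :: acc) k)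
        (alv A W L acc k) := rfl
    have h2 : alvL A W (K :: L) acc = cond (Nat.beq (Nat.land K W) 0)
      (alvL A W L (Nat.lor K (Nat.shiftLeft (pw 6 (Nat.land K A)) 81) :: acc))
        (alvL A W L acc) := rfl
    rw [h1, h2]
    cases Nat.beq (Nat.land K W) 0
    · exact ih acc
    · exact ih _

/-- an element of the list of alive lines -/
def IsLine (a w M : ℕ) : Prop :=
  ∃ K ∈ Ks, ds M = ds K ∧ (∀ e ∈ ds K, e ∉ ds w) ∧ 2 ^ (ds K ∩ ds a).card ≤ Nat.shiftRight M 81

theorem code_lt (e : E9) : code e < 81 := by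
  induction e using Sym2.ind with | _ x y => ?_
  rw [code_mk]
  have hx := x.2
  have hy := y.2
  omega

theorem tb_low (K q : ℕ) {i : ℕ} (hi : i < 81) :
    (Nat.lor K (Nat.shiftLeft q 81)).testBit i = K.testBit i := by
  rw [tb_lor]
  have h : Nat.shiftLeft q 81 = q <<< 81 := rfl
  rw [h, Nat.testBit_shiftLeft]
  have : ¬ (81 ≤ i) := by omega
  simp [this]

theorem Ks_lt : ∀ K ∈ Ks, K < 2 ^ 81 := by decide +kernel

theorem isLine_mk {a w K : ℕ} (hK : K ∈ Ks) (h : Nat.beq (Nat.land K w) 0 = true) :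
    IsLine a w (Nat.lor K (Nat.shiftLeft (pw 6 (Nat.land K a)) 81)) := by
  refine ⟨K, hK, ?_, ?_, ?_⟩
  · ext e
    rw [mem_ds, mem_ds, tb_low _ _ (code_lt e)]
  · intro e he hw
    exact land_zero h _ ⟨mem_ds.1 he, mem_ds.1 hw⟩
  · have h1 : Nat.shiftRight (Nat.lor K (Nat.shiftLeft (pw 6 (Nat.land K a)) 81)) 81 =
      pw 6 (Nat.land K a) := by
      have h2 : Nat.shiftRight (Nat.lor K (Nat.shiftLeft (pw 6 (Nat.land K a)) 81)) 81 =
        (K ||| (pw 6 (Nat.land K a)) <<< 81) >>> 81 := rfl
      rw [h2, Nat.shiftRight_or_distrib, Nat.shiftLeft_shiftRight, Nat.shiftRight_eq_div_pow,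
        Nat.div_eq_of_lt (Ks_lt K hK), Nat.zero_or]
    rw [h1]
    have h3 : ds (Nat.land K a) = ds K ∩ ds a := by
      ext e; rw [Finset.mem_inter, mem_ds, mem_ds, mem_ds, tb_land, Bool.and_eq_true]
    rw [← h3]
    apply pw_le
    · intro i hi
      rw [tb_land, Bool.and_eq_true] at hi
      exact Ks_sub K hK i hi.1
    · rw [h3]
      exact (Finset.card_le_card Finset.inter_subset_left).trans (Ks_card K hK).le

theorem alvL_sound {a w : ℕ} : ∀ (L acc : List ℕ), (∀ K ∈ L, K ∈ Ks) → (∀ M ∈ acc, IsLine a w M) →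
    (∀ M ∈ alvL a w L acc, IsLine a w M) := by
  intro L
  induction L with
  | nil => intro acc _ h; exact h
  | cons K L ih =>
    intro acc hL hacc
    have h2 : alvL a w (K :: L) acc = cond (Nat.beq (Nat.land K w) 0)
      (alvL a w L (Nat.lor K (Nat.shiftLeft (pw 6 (Nat.land K a)) 81) :: acc))
        (alvL a w L acc) := rfl
    rw [h2]
    by_cases hb : Nat.beq (Nat.land K w) 0 = true
    · rw [hb, cond_true]
      apply ih _ (fun K' h' => hL K' (List.mem_cons_of_mem _ h'))
      intro M hM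
      rcases List.mem_cons.1 hM with rfl | hM
      · exact isLine_mk (hL K List.mem_cons_self) hb
      · exact hacc M hM
    · rw [Bool.not_eq_true] at hb
      rw [hb, cond_false]
      exact ih _ (fun K' h' => hL K' (List.mem_cons_of_mem _ h')) hacc

theorem alvL_acc {a w : ℕ} : ∀ (L acc : List ℕ), ∀ M ∈ acc, M ∈ alvL a w L acc := by
  intro L
  induction L with
  | nil => intro acc M h; exact h
  | cons K L ih =>
    intro acc M hM
    have h2 : alvL a w (K :: L) acc = cond (Nat.beq (Nat.land K w) 0)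
      (alvL a w L (Nat.lor K (Nat.shiftLeft (pw 6 (Nat.land K a)) 81) :: acc))
        (alvL a w L acc) := rfl
    rw [h2]
    cases Nat.beq (Nat.land K w) 0
    · exact ih acc M hM
    · exact ih _ M (List.mem_cons_of_mem _ hM)

theorem alvL_complete {a w : ℕ} : ∀ (L acc : List ℕ), ∀ K ∈ L, (∀ e ∈ ds K, e ∉ ds w) → K ∈ Ks →
    ∃ M ∈ alvL a w L acc, ds M = ds K := by
  intro L
  induction L with
  | nil => intro acc K hK; simp at hK
  | cons K0 L ih =>
    intro acc K hK hal hKs
    have h2 : alvL a w (K0 :: L) acc = cond (Nat.beq (Nat.land K0 w) 0)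
      (alvL a w L (Nat.lor K0 (Nat.shiftLeft (pw 6 (Nat.land K0 a)) 81) :: acc))
        (alvL a w L acc) := rfl
    rw [h2]
    rcases List.mem_cons.1 hK with rfl | hK
    · have hb : Nat.beq (Nat.land K w) 0 = true := by
        by_contra hc
        rw [Bool.not_eq_true] at hc
        obtain ⟨i, h3, h4⟩ := land_ne hc
        obtain ⟨e, rfl, _⟩ := Sub_UT _ (Ks_sub K hKs i h3)
        exact hal e (mem_ds.2 h3) (mem_ds.2 h4)
      rw [hb, cond_true]
      refine ⟨_, alvL_acc _ _ _ List.mem_cons_self, ?_⟩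
      ext e
      rw [mem_ds, mem_ds, tb_low _ _ (code_lt e)]
    · cases Nat.beq (Nat.land K0 w) 0
      · exact ih acc K hK hal hKs
      · exact ih _ K hK hal hKs

/-- the list of alive lines of a position -/
def Lines (a w : ℕ) (L : List ℕ) : Prop :=
  (∀ M ∈ L, IsLine a w M) ∧ ∀ K ∈ Ks, (∀ e ∈ ds K, e ∉ ds w) → ∃ M ∈ L, ds M = ds K

theorem alv_lines (a w : ℕ) : Lines a w (alvL a w Ks []) :=
  ⟨alvL_sound Ks [] (fun _ h => h) (by simp), fun K hK h => alvL_complete Ks [] K hK h hK⟩

/-! ### pairs -/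

/-- mask of a pair -/
def pm (p : E9 × E9) : ℕ := Nat.lor (on (code p.1)) (on (code p.2))

theorem ds_pm (p : E9 × E9) : ds (pm p) = {p.1, p.2} := by
  unfold pm
  rw [ds_lor, ds_on, ds_on]
  rfl

/-- `qs` are the masks of the disjoint pairs `ps` with union `P`, outside of `A1` -/
def GP (A1 P : ℕ) (qs : List ℕ) (ps : List (E9 × E9)) : Prop :=
  qs = ps.map pm ∧ Dj ps ∧ ds P = els ps ∧ (∀ e ∈ els ps, e ∉ ds A1) ∧
    ∀ i, P.testBit i = true → UT.testBit i = true

theorem prs_sound {A1 : ℕ} {k : ℕ → ℕ → List ℕ → Bool} : ∀ (m s P : ℕ) (qs : List ℕ)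
    (ps : List (E9 × E9)), GP A1 P qs ps → prs A1 m s P qs k = true →
    ∃ s' P' qs' ps', GP A1 P' qs' ps' ∧ k s' P' qs' = true := by
  intro m
  induction m with
  | zero => intro s P qs ps h hk; exact ⟨s, P, qs, ps, h, hk⟩
  | succ m ih =>
    intro s P qs ps h hk
    have h0 : prs A1 (m + 1) s P qs k =
      (fun x y =>
        (fun q =>
          cond (bt UT x) (cond (bt UT y) (cond (Nat.beq x y) false
            (cond (Nat.beq (Nat.land q (Nat.lor A1 P)) 0)
              (prs A1 m (Nat.shiftRight s 16) (Nat.lor P q) (q :: qs) k) false)) false) false)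
          (Nat.lor (on x) (on y)))
        (Nat.land s 255) (Nat.land (Nat.shiftRight s 8) 255) := rfl
    rw [h0] at hk
    generalize Nat.land s 255 = x at hk
    generalize Nat.land (Nat.shiftRight s 8) 255 = y at hk
    simp only at hk
    obtain ⟨hx, hk⟩ := cond_ff hk
    obtain ⟨hy, hk⟩ := cond_ff hk
    obtain ⟨hxy, hk⟩ := Pool.Agent.K4G.cond_nf hk
    obtain ⟨hq, hk⟩ := cond_ff hk
    obtain ⟨e1, rfl, hd1⟩ := bt_UT hx
    obtain ⟨e2, rfl, hd2⟩ := bt_UT hy
    obtain ⟨g1, g2, g3, g4, g5⟩ := h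
    have hne : e1 ≠ e2 := by
      rintro rfl
      have : Nat.beq (code e1) (code e1) = true := Nat.beq_refl _
      rw [this] at hxy
      exact absurd hxy (by decide)
    have hout : ∀ e, e = e1 ∨ e = e2 → e ∉ ds A1 ∧ e ∉ els ps := by
      intro e he
      have hem : (Nat.lor (on (code e1)) (on (code e2))).testBit (code e) = true := by
        have := ds_pm (e1, e2)
        have h' : e ∈ ds (pm (e1, e2)) := by
          rw [this]
          rcases he with rfl | rfl <;> simp
        exact mem_ds.1 h'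
      have h6 := land_zero hq (code e)
      rw [tb_lor A1 P] at h6
      constructor
      · intro h'
        exact h6 ⟨hem, by rw [mem_ds.1 h']; rfl⟩
      · intro h'
        rw [← g3] at h'
        exact h6 ⟨hem, by rw [mem_ds.1 h', Bool.or_true]⟩
    refine ih _ _ _ ((e1, e2) :: ps) ⟨?_, ?_, ?_, ?_, ?_⟩ hk
    · rw [List.map_cons, ← g1]; rfl
    · refine ⟨hne, ?_, g2⟩
      intro q hq'
      have h1 := (hout e1 (Or.inl rfl)).2
      have h2 := (hout e2 (Or.inr rfl)).2
      rw [mem_els] at h1 h2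
      refine ⟨?_, ?_, ?_, ?_⟩
      · intro h'; exact h1 ⟨q, hq', Or.inl h'⟩
      · intro h'; exact h1 ⟨q, hq', Or.inr h'⟩
      · intro h'; exact h2 ⟨q, hq', Or.inl h'⟩
      · intro h'; exact h2 ⟨q, hq', Or.inr h'⟩
    · rw [ds_lor, g3]
      have h7 : ds (Nat.lor (on (code e1)) (on (code e2))) = {e1, e2} := ds_pm (e1, e2)
      rw [h7]
      ext e
      rw [Finset.mem_union, mem_els, mem_els]
      simp only [List.mem_cons, Finset.mem_insert, Finset.mem_singleton]
      constructor
      · rintro (⟨p, hp, h'⟩ | h')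
        · exact ⟨p, Or.inr hp, h'⟩
        · exact ⟨(e1, e2), Or.inl rfl, h'⟩
      · rintro ⟨p, rfl | hp, h'⟩
        · exact Or.inr h'
        · exact Or.inl ⟨p, hp, h'⟩
    · intro e he
      rw [mem_els] at he
      obtain ⟨p, hp, h'⟩ := he
      rcases List.mem_cons.1 hp with rfl | hp
      · exact (hout e h').1
      · exact g4 e (mem_els.2 ⟨p, hp, h'⟩)
    · intro i hi
      rw [tb_lor, Bool.or_eq_true, tb_lor, Bool.or_eq_true, tb_on, tb_on, decide_eq_true_eq,
        decide_eq_true_eq] at hi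
      rcases hi with hi | rfl | rfl
      · exact g5 i hi
      · exact UT_code hd1
      · exact UT_code hd2

/-- `cov` decides whether a pair is contained in the line -/
theorem cov_true {ps : List (E9 × E9)} {M : ℕ} (h : cov (ps.map pm) M = true) :
    ∃ p ∈ ps, p.1 ∈ ds M ∧ p.2 ∈ ds M := by
  obtain ⟨q, hq, h1⟩ := anyL_any h
  obtain ⟨p, hp, rfl⟩ := List.mem_map.1 hq
  have h2 : Nat.land M (pm p) = pm p := beq_true h1
  have key : ∀ e ∈ ds (pm p), e ∈ ds M := by
    intro e he
    rw [mem_ds] at he ⊢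
    have := tb_land M (pm p) (code e)
    rw [h2, he, Bool.and_true] at this
    exact this.symm
  rw [ds_pm] at key
  exact ⟨p, hp, key _ (by simp), key _ (by simp)⟩

end Pool.Agent.K4B
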