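import Pool.Agent.Lib_helper31.K4B.Sound

/-!
Soundness of the checker: records, entries, certificate.
-/

namespace Pool.Agent.K4B

open Pool.Agent.K4G (bt nib pmask bt_eq tb_lor tb_land tb_xor tb_shl cond_ff cond_tt beq_true
  ble_true perm_sound)

theorem beq_land_on {M : ℕ} {e : E9} (h : e ∉ ds M) : Nat.beq (Nat.land M (on (code e))) 0 = true := by
  by_contra hc
  rw [Bool.not_eq_true] at hc
  obtain ⟨i, h1, h2⟩ := land_ne hc
  rw [tb_on, decide_eq_true_eq] at h2
  rw [← h2] at h1
  exact h (mem_ds.2 h1)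

theorem not_of_beq {M : ℕ} {e : E9} (h : Nat.beq (Nat.land M (on (code e))) 0 = true) :
    e ∉ ds M := by
  intro h'
  exact land_zero h (code e) ⟨mem_ds.1 h', by rw [tb_on]; simp⟩

/-- the part of a line which remains -/
def rest (a : ℕ) (e : E9) (ps : List (E9 × E9)) (M : ℕ) : Finset E9 :=
  ((ds M \ ds a).erase e) \ els ps

/-- the sets which are left over -/
noncomputable def ptL (a : ℕ) (e f : E9) (ps : List (E9 × E9)) (L : List ℕ) : List (Finset E9) :=
  List.rec (motive := fun _ => List (Finset E9)) []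
    (fun M _ ih => cond (Nat.beq (Nat.land M (on (code f))) 0)
      (cond (cov (ps.map pm) M) ih (rest a e ps M :: ih)) ih) L

theorem weight_le {a w : ℕ} {e : E9} {ps : List (E9 × E9)} {P M : ℕ}
    (hP : ds P = els ps) (hPU : ∀ i, P.testBit i = true → UT.testBit i = true)
    (hM : IsLine a w M) :
    64 * (1 / 2 : ℚ) ^ (rest a e ps M).card ≤
      ((Nat.mul (Nat.mul (Nat.shiftRight M 81) (pw 6 (Nat.land M P)))
          (cond (Nat.beq (Nat.land M (on (code e))) 0) 1 2) : ℕ) : ℚ) := by
  obtain ⟨K, hK, hMK, _, hw⟩ := hM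
  have hsub : ds K ⊆ rest a e ps M ∪ ((ds K ∩ ds a) ∪ ((ds K ∩ {e}) ∪ (ds K ∩ els ps))) := by
    intro x hx
    unfold rest
    rw [hMK]
    simp only [Finset.mem_union, Finset.mem_sdiff, Finset.mem_erase, Finset.mem_inter,
      Finset.mem_singleton]
    tauto
  have h6 : 6 ≤ (rest a e ps M).card + ((ds K ∩ ds a).card + ((ds K ∩ {e}).card +
      (ds K ∩ els ps).card)) := by
    rw [← Ks_card K hK]
    refine (Finset.card_le_card hsub).trans ((Finset.card_union_le _ _).trans ?_)
    have h1 := Finset.card_union_le (ds K ∩ ds a) ((ds K ∩ {e}) ∪ (ds K ∩ els ps))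
    have h2 := Finset.card_union_le (ds K ∩ {e}) (ds K ∩ els ps)
    omega
  have hγ : 2 ^ (ds K ∩ els ps).card ≤ pw 6 (Nat.land M P) := by
    have h3 : ds (Nat.land M P) = ds K ∩ els ps := by
      rw [← hMK, ← hP]
      ext e; rw [Finset.mem_inter, mem_ds, mem_ds, mem_ds, tb_land, Bool.and_eq_true]
    rw [← h3]
    apply pw_le
    · intro i hi
      rw [tb_land, Bool.and_eq_true] at hi
      exact hPU i hi.2
    · rw [h3]
      exact (Finset.card_le_card Finset.inter_subset_left).trans (Ks_card K hK).le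
  have hβ : 2 ^ (ds K ∩ {e}).card ≤ cond (Nat.beq (Nat.land M (on (code e))) 0) 1 2 := by
    by_cases hb : Nat.beq (Nat.land M (on (code e))) 0 = true
    · rw [hb]
      have := not_of_beq hb
      rw [hMK] at this
      rw [Finset.inter_singleton_of_notMem this]
      simp
    · rw [Bool.not_eq_true] at hb
      rw [hb]
      have h1 : (ds K ∩ {e}).card ≤ 1 := by
        refine (Finset.card_le_card Finset.inter_subset_right).trans ?_
        simp
      calc 2 ^ (ds K ∩ {e}).card ≤ 2 ^ 1 := Nat.pow_le_pow_right (by norm_num) h1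
        _ = 2 := by norm_num
  set r := (rest a e ps M).card
  set α := (ds K ∩ ds a).card
  set β := (ds K ∩ {e}).card
  set γ := (ds K ∩ els ps).card
  have hnat : 2 ^ 6 ≤ 2 ^ r * (2 ^ α * 2 ^ γ * 2 ^ β) := by
    rw [← pow_add, ← pow_add, ← pow_add]
    exact Nat.pow_le_pow_right (by norm_num) (by omega)
  have hprod : 2 ^ α * 2 ^ γ * 2 ^ β ≤ Nat.mul (Nat.mul (Nat.shiftRight M 81)
      (pw 6 (Nat.land M P))) (cond (Nat.beq (Nat.land M (on (code e))) 0) 1 2) :=
    Nat.mul_le_mul (Nat.mul_le_mul hw hγ) hβ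
  have hall : 64 ≤ 2 ^ r * Nat.mul (Nat.mul (Nat.shiftRight M 81)
      (pw 6 (Nat.land M P))) (cond (Nat.beq (Nat.land M (on (code e))) 0) 1 2) :=
    le_trans (by simpa using hnat) (Nat.mul_le_mul_left _ hprod)
  have hq : (64 : ℚ) ≤ 2 ^ r * ((Nat.mul (Nat.mul (Nat.shiftRight M 81)
      (pw 6 (Nat.land M P))) (cond (Nat.beq (Nat.land M (on (code e))) 0) 1 2) : ℕ) : ℚ) := by
    exact_mod_cast hall
  have hr : (0 : ℚ) < 2 ^ r := by positivity
  rw [one_div, inv_pow, ← div_eq_mul_inv, div_le_iff₀ hr]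
  linarith

theorem pot_sound {a w : ℕ} {e f : E9} {ps : List (E9 × E9)} {P : ℕ}
    (hP : ds P = els ps) (hPU : ∀ i, P.testBit i = true → UT.testBit i = true) :
    ∀ L : List ℕ, (∀ M ∈ L, IsLine a w M) →
      64 * wt (ptL a e f ps L) ≤ ((pot (on (code e)) (on (code f)) P (ps.map pm) L : ℕ) : ℚ) := by
  intro L
  induction L with
  | nil =>
    intro _
    have h : ptL a e f ps [] = [] := rfl
    rw [h, wt_nil]
    simp
  | cons M L ih =>
    intro hL
    have ih' := ih (fun M' h' => hL M' (List.mem_cons_of_mem _ h'))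
    have h1 : ptL a e f ps (M :: L) = cond (Nat.beq (Nat.land M (on (code f))) 0)
      (cond (cov (ps.map pm) M) (ptL a e f ps L) (rest a e ps M :: ptL a e f ps L))
        (ptL a e f ps L) := rfl
    have h2 : pot (on (code e)) (on (code f)) P (ps.map pm) (M :: L) =
      cond (Nat.beq (Nat.land M (on (code f))) 0)
        (cond (cov (ps.map pm) M) (pot (on (code e)) (on (code f)) P (ps.map pm) L)
          (Nat.mul (Nat.mul (Nat.shiftRight M 81) (pw 6 (Nat.land M P)))
            (cond (Nat.beq (Nat.land M (on (code e))) 0) 1 2) +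
              pot (on (code e)) (on (code f)) P (ps.map pm) L))
          (pot (on (code e)) (on (code f)) P (ps.map pm) L) := rfl
    rw [h1, h2]
    cases Nat.beq (Nat.land M (on (code f))) 0
    · exact ih'
    · cases cov (ps.map pm) M
      · simp only [cond_true, cond_false]
        rw [wt_cons, mul_add]
        push_cast
        have := weight_le (e := e) hP hPU (hL M List.mem_cons_self)
        linarith
      · exact ih'

theorem mem_ptL {a : ℕ} {e f : E9} {ps : List (E9 × E9)} {M : ℕ} (hf : f ∉ ds M)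
    (hc : cov (ps.map pm) M = false) : ∀ L : List ℕ, M ∈ L → rest a e ps M ∈ ptL a e f ps L := by
  intro L
  induction L with
  | nil => intro h; simp at h
  | cons M' L ih =>
    intro h
    have h1 : ptL a e f ps (M' :: L) = cond (Nat.beq (Nat.land M' (on (code f))) 0)
      (cond (cov (ps.map pm) M') (ptL a e f ps L) (rest a e ps M' :: ptL a e f ps L))
        (ptL a e f ps L) := rfl
    rw [h1]
    rcases List.mem_cons.1 h with rfl | h
    · rw [beq_land_on hf, hc]
      exact List.mem_cons_self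
    · have := ih h
      cases Nat.beq (Nat.land M' (on (code f))) 0
      · exact this
      · cases cov (ps.map pm) M'
        · exact List.mem_cons_of_mem _ this
        · exact this

/-- the sets after the two moves and the pairs -/
theorem rest_of {a w : ℕ} {L : List ℕ} (hL : Lines a w L) {e f : E9} (hfa : f ∉ ds a)
    {ps : List (E9 × E9)} (hps : ∀ x ∈ els ps, x ∉ ds (Nat.lor a (on (code e))))
    {T : Finset E9}
    (hT : ∃ S ∈ nx (fam a w) e f, (∀ p ∈ ps, ¬ (p.1 ∈ S ∧ p.2 ∈ S)) ∧ T = S \ els ps) :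
    ∃ M ∈ L, f ∉ ds M ∧ cov (ps.map pm) M = false ∧ T = rest a e ps M := by
  obtain ⟨S, ⟨S0, ⟨K, hK, hal, rfl⟩, hf, rfl⟩, hc, rfl⟩ := hT
  obtain ⟨M, hM, hMK⟩ := hL.2 K hK hal
  refine ⟨M, hM, ?_, ?_, ?_⟩
  · rw [hMK]
    intro h'
    exact hf (Finset.mem_sdiff.2 ⟨h', hfa⟩)
  · by_contra hc'
    rw [Bool.not_eq_false] at hc'
    obtain ⟨p, hp, h1, h2⟩ := cov_true hc'
    rw [hMK] at h1 h2
    apply hc p hp
    have h3 := hps p.1 (mem_els.2 ⟨p, hp, Or.inl rfl⟩)
    have h4 := hps p.2 (mem_els.2 ⟨p, hp, Or.inr rfl⟩)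
    rw [ds_lor, ds_on, Finset.mem_union, Finset.mem_singleton, not_or] at h3 h4
    simp only [Finset.mem_erase, Finset.mem_sdiff]
    exact ⟨⟨h3.2, h1, h3.1⟩, ⟨h4.2, h2, h4.1⟩⟩
  · unfold rest
    rw [hMK]

/-! ### links -/

/-- the header of an entry -/
noncomputable def hdr (T : Tab) : ℕ → ℕ × ℕ :=
  Tab.rec (motive := fun _ => ℕ → ℕ × ℕ)
    (fun a f _ => (a, f))
    (fun _ _ ihl ihr j => cond (Nat.beq (Nat.land j 1) 0) (ihl (Nat.shiftRight j 1))
      (ihr (Nat.shiftRight j 1))) T

theorem tget_eq (k : ℕ → ℕ → Bool) : ∀ (T : Tab) (j : ℕ), tget T j k = k (hdr T j).1 (hdr T j).2 := by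
  intro T
  induction T with
  | leaf a f => intro j; rfl
  | node l r ihl ihr =>
    intro j
    have h1 : tget (Tab.node l r) j k = cond (Nat.beq (Nat.land j 1) 0)
      (tget l (Nat.shiftRight j 1) k) (tget r (Nat.shiftRight j 1) k) := rfl
    have h2 : hdr (Tab.node l r) j = cond (Nat.beq (Nat.land j 1) 0)
      (hdr l (Nat.shiftRight j 1)) (hdr r (Nat.shiftRight j 1)) := rfl
    rw [h1, h2]
    cases Nat.beq (Nat.land j 1) 0
    · exact ihr _
    · exact ihl _

/-- Breaker wins at the position of the entry `j` -/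
def GoodE (T : Tab) (j : ℕ) : Prop := BW (fam (hdr T j).1 (dead (hdr T j).1 (hdr T j).2))

theorem lnk_sound {T : Tab} {j0 n j p : ℕ} {a w : ℕ} {L : List ℕ} (hL : Lines a w L) {e f : E9}
    (hfa : f ∉ ds a) {P : ℕ} {ps : List (E9 × E9)}
    (hgp : GP (Nat.lor a (on (code e))) P (ps.map pm) ps)
    (hg : ∀ j', j0 < j' → j' < n → GoodE T j')
    (h : lnk T j0 n j p (on (code f)) (Nat.lor (Nat.lor a (on (code e))) P) (ps.map pm) L = true) :
    BW (nx (fam a w) e f) := by
  obtain ⟨_, g2, g3, g4, g5⟩ := hgp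
  obtain ⟨h1, h⟩ := cond_ff (show cond (Nat.ble (Nat.succ j0) j) (cond (Nat.ble (Nat.succ j) n)
    (cond (Nat.beq (pmask p 9) 511) _ false) false) false = true from h)
  obtain ⟨h2, h⟩ := cond_ff h
  obtain ⟨h3, h⟩ := cond_ff h
  rw [tget_eq] at h
  have hgood := hg j (ble_true h1) (ble_true h2)
  obtain ⟨σ, hσ⟩ := exists_perm h3
  unfold GoodE at hgood
  generalize (hdr T j).1 = a' at h hgood
  generalize (hdr T j).2 = f' at h hgood
  simp only at h
  have hall := allL_all h
  apply BW.pairList Finset.univ ps g2 _ (fun S _ => Finset.subset_univ S)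
  refine (hgood.image (map_inj σ)).mono Finset.univ (fun S _ => Finset.subset_univ S) ?_
  intro T' hT'
  obtain ⟨M, hM, hfM, hcM, rfl⟩ := rest_of hL hfa g4 hT'
  have ht := hall M hM
  have hAP : ∀ x, x ∉ ds (Nat.lor (Nat.lor a (on (code e))) P) → x ∉ ds a ∧ x ≠ e ∧ x ∉ els ps := by
    intro x hx
    rw [ds_lor, ds_lor, ds_on, g3] at hx
    simp only [Finset.mem_union, Finset.mem_singleton, not_or] at hx
    exact ⟨hx.1.1, hx.1.2, hx.2⟩
  have ht' : cond (Nat.beq (Nat.land M (on (code f))) 0)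
    (cond (Nat.beq (Nat.land M (Nat.lor (sdf UT (Nat.lor (rel p a' UL) (rel p f' UL)))
      (sdf (Nat.lor (Nat.lor a (on (code e))) P) (rel p a' UL)))) 0) true
      (cond (cov (ps.map pm) M) true
        (anyL (fun K2 => Nat.beq (Nat.land K2 (Nat.lor (sdf UT (Nat.lor (rel p a' UL) (rel p f' UL)))
          (sdf (sdf UT (rel p a' UL)) (sdf M (Nat.lor (Nat.lor a (on (code e))) P))))) 0) Ks)))
      true = true := ht
  rw [beq_land_on hfM, cond_true, hcM, cond_false] at ht'
  rcases cond_tt ht' with hX | hX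
  · obtain ⟨K, hK, hMK, _, _⟩ := hL.1 M hM
    obtain ⟨T0, hT0, hT0e⟩ := fam_rel hσ hK (a := a') (f := f') (by
      intro x hx hw
      rw [← hMK, mem_ds] at hx
      have := land_zero hX (code x)
      rw [tb_lor] at this
      exact this ⟨hx, by rw [mem_ds.1 hw]; rfl⟩)
    refine ⟨T0.image (Sym2.map σ), ⟨T0, hT0, rfl⟩, ?_⟩
    rw [← hT0e]
    intro x hx
    rw [Finset.mem_sdiff, ← hMK] at hx
    have h5 : x ∉ ds (Nat.lor (Nat.lor a (on (code e))) P) := by
      intro h'
      have := land_zero hX (code x)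
      rw [tb_lor] at this
      apply this ⟨mem_ds.1 hx.1, _⟩
      have h6 : x ∈ ds (sdf (Nat.lor (Nat.lor a (on (code e))) P) (rel p a' UL)) := by
        rw [ds_sdf, Finset.mem_sdiff]; exact ⟨h', hx.2⟩
      rw [mem_ds.1 h6, Bool.or_true]
    obtain ⟨b1, b2, b3⟩ := hAP x h5
    unfold rest
    simp only [Finset.mem_sdiff, Finset.mem_erase]
    exact ⟨⟨b2, hx.1, b1⟩, b3⟩
  · obtain ⟨K2, hK2, hY⟩ := anyL_any hX
    obtain ⟨T0, hT0, hT0e⟩ := fam_rel hσ hK2 (a := a') (f := f') (by
      intro x hx hw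
      rw [mem_ds] at hx
      have := land_zero hY (code x)
      rw [tb_lor] at this
      exact this ⟨hx, by rw [mem_ds.1 hw]; rfl⟩)
    refine ⟨T0.image (Sym2.map σ), ⟨T0, hT0, rfl⟩, ?_⟩
    rw [← hT0e]
    intro x hx
    rw [Finset.mem_sdiff] at hx
    have h7 : x ∈ ds (sdf M (Nat.lor (Nat.lor a (on (code e))) P)) := by
      by_contra h'
      have := land_zero hY (code x)
      rw [tb_lor] at this
      apply this ⟨mem_ds.1 hx.1, _⟩
      have h6 : x ∈ ds (sdf (sdf UT (rel p a' UL))
          (sdf M (Nat.lor (Nat.lor a (on (code e))) P))) := by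
        rw [ds_sdf, Finset.mem_sdiff, ds_sdf, Finset.mem_sdiff]
        exact ⟨⟨mem_ds.2 (Ks_sub K2 hK2 _ (mem_ds.1 hx.1)), hx.2⟩, h'⟩
      rw [mem_ds.1 h6, Bool.or_true]
    rw [ds_sdf, Finset.mem_sdiff] at h7
    obtain ⟨b1, b2, b3⟩ := hAP x h7.2
    unfold rest
    simp only [Finset.mem_sdiff, Finset.mem_erase]
    exact ⟨⟨b2, h7.1, b1⟩, b3⟩

theorem potential_sound {a w : ℕ} {L : List ℕ} (hL : Lines a w L) {e f : E9}
    (hfa : f ∉ ds a) {P : ℕ} {ps : List (E9 × E9)}
    (hgp : GP (Nat.lor a (on (code e))) P (ps.map pm) ps)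
    (h : Nat.ble (Nat.succ (pot (on (code e)) (on (code f)) P (ps.map pm) L)) 32 = true) :
    BW (nx (fam a w) e f) := by
  obtain ⟨_, g2, g3, g4, g5⟩ := hgp
  have : Inhabited E9 := ⟨s(0, 1)⟩
  have hw : wt (ptL a e f ps L) < 1 / 2 := by
    have h1 := pot_sound (e := e) (f := f) g3 g5 L hL.1
    have h2 : pot (on (code e)) (on (code f)) P (ps.map pm) L + 1 ≤ 32 := ble_true h
    have h3 : ((pot (on (code e)) (on (code f)) P (ps.map pm) L : ℕ) : ℚ) + 1 ≤ 32 := by
      exact_mod_cast h2
    linarith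
  apply BW.pairList Finset.univ ps g2 _ (fun S _ => Finset.subset_univ S)
  refine (BW.pot Finset.univ (fun S _ => Finset.subset_univ S) hw).mono Finset.univ
    (fun S _ => Finset.subset_univ S) ?_
  intro T' hT'
  obtain ⟨M, hM, hfM, hcM, rfl⟩ := rest_of hL hfa g4 hT'
  exact ⟨rest a e ps M, mem_ptL hfM hcM L hM, subset_rfl⟩

/-! ### records -/

theorem gp_nil (A1 : ℕ) : GP A1 0 [] [] := by
  refine ⟨rfl, trivial, ?_, ?_, ?_⟩
  · ext e; rw [mem_ds, mem_els]; simp
  · intro e he; rw [mem_els] at he; simp at he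
  · intro i hi; rw [Nat.zero_testBit] at hi; exact absurd hi (by decide)

theorem recs_sound {T : Tab} {j0 n a w : ℕ} {L : List ℕ} (hL : Lines a w L)
    (hg : ∀ j', j0 < j' → j' < n → GoodE T j') {k : ℕ → Bool} : ∀ (fuel s C : ℕ),
    recs T j0 n a L fuel s C k = true → ∃ C', k C' = true ∧
      ∀ e : E9, C'.testBit (code e) = true → C.testBit (code e) = true ∨
        ∃ f, f ≠ e ∧ BW (nx (fam a w) e f) := by
  intro fuel
  induction fuel with
  | zero => intro s C h; exact absurd (show false = true from h) (by decide)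
  | succ m ih =>
    intro s C h
    have h0 : recs T j0 n a L (m + 1) s C k =
      (fun e f h =>
        cond (Nat.beq e 0) (k C)
          (cond (bt UT e) (cond (bt UT f) (cond (Nat.beq e f) false
            (cond (bt a f) false
              (prs (Nat.lor a (on e)) (Nat.shiftRight h 1) (Nat.shiftRight s 24) 0 []
                (fun s1 P qs =>
                  cond (Nat.beq (Nat.land h 1) 0)
                    (cond (Nat.ble (Nat.succ (pot (on e) (on f) P qs L)) 32)
                      (recs T j0 n a L m s1 (Nat.lor C (on e)) k) false)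
                    (cond (lnk T j0 n (Nat.land s1 65535)
                        (Nat.land (Nat.shiftRight s1 16) 0xFFFFFFFFFF)
                        (on f) (Nat.lor (Nat.lor a (on e)) P) qs L)
                      (recs T j0 n a L m (Nat.shiftRight s1 56) (Nat.lor C (on e)) k)
                        false))))) false) false))
        (Nat.land s 255) (Nat.land (Nat.shiftRight s 8) 255)
        (Nat.land (Nat.shiftRight s 16) 255) := rfl
    rw [h0] at h
    generalize Nat.land s 255 = x at h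
    generalize Nat.land (Nat.shiftRight s 8) 255 = y at h
    generalize Nat.land (Nat.shiftRight s 16) 255 = z at h
    simp only at h
    by_cases hx0 : Nat.beq x 0 = true
    · rw [hx0, cond_true] at h
      exact ⟨C, h, fun e he => Or.inl he⟩
    rw [Bool.not_eq_true] at hx0
    rw [hx0, cond_false] at h
    obtain ⟨hx, h⟩ := cond_ff h
    obtain ⟨hy, h⟩ := cond_ff h
    obtain ⟨hxy, h⟩ := Pool.Agent.K4G.cond_nf h
    obtain ⟨hya, h⟩ := Pool.Agent.K4G.cond_nf h
    obtain ⟨e, rfl, _⟩ := bt_UT hx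
    obtain ⟨f, rfl, _⟩ := bt_UT hy
    have hne : f ≠ e := by
      rintro rfl
      have : Nat.beq (code f) (code f) = true := Nat.beq_refl _
      rw [this] at hxy
      exact absurd hxy (by decide)
    have hfa : f ∉ ds a := by
      intro h'
      rw [bt_eq, mem_ds.1 h'] at hya
      exact absurd hya (by decide)
    obtain ⟨s', P, qs, ps, hgp, h⟩ := prs_sound _ _ _ _ [] (gp_nil _) h
    obtain rfl := hgp.1
    have hstep : ∀ s'', recs T j0 n a L m s'' (Nat.lor C (on (code e))) k = true →
        BW (nx (fam a w) e f) → ∃ C', k C' = true ∧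
      ∀ e : E9, C'.testBit (code e) = true → C.testBit (code e) = true ∨
        ∃ f, f ≠ e ∧ BW (nx (fam a w) e f) := by
      intro s'' h1 h2
      obtain ⟨C', hC', hall⟩ := ih s'' _ h1
      refine ⟨C', hC', ?_⟩
      intro e' he'
      rcases hall e' he' with h3 | h3
      · rw [tb_lor, Bool.or_eq_true, tb_on, decide_eq_true_eq] at h3
        rcases h3 with h3 | h3
        · exact Or.inl h3
        · rw [← code_inj h3]
          exact Or.inr ⟨f, hne, h2⟩
      · exact Or.inr h3
    by_cases hz : Nat.beq (Nat.land z 1) 0 = true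
    · rw [hz, cond_true] at h
      obtain ⟨h1, h2⟩ := cond_ff h
      exact hstep _ h2 (potential_sound hL hfa hgp h1)
    · rw [Bool.not_eq_true] at hz
      rw [hz, cond_false] at h
      obtain ⟨h1, h2⟩ := cond_ff h
      exact hstep _ h2 (lnk_sound hL hfa hgp hg h1)

/-! ### dominated moves -/

theorem inter_sound (cb : ℕ) : ∀ (L : List ℕ) (i : ℕ), (inter cb L).testBit i = true →
    UT.testBit i = true ∧ ∀ M ∈ L, Nat.beq (Nat.land M cb) 0 = false → M.testBit i = true := by
  intro L
  induction L with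
  | nil => intro i h; exact ⟨h, by simp⟩
  | cons M L ih =>
    intro i h
    have h0 : inter cb (M :: L) = cond (Nat.beq (Nat.land M cb) 0) (inter cb L)
      (Nat.land M (inter cb L)) := rfl
    rw [h0] at h
    by_cases hb : Nat.beq (Nat.land M cb) 0 = true
    · rw [hb, cond_true] at h
      refine ⟨(ih i h).1, ?_⟩
      intro M' hM' hb'
      rcases List.mem_cons.1 hM' with rfl | hM'
      · rw [hb] at hb'; exact absurd hb' (by decide)
      · exact (ih i h).2 M' hM' hb'
    · rw [Bool.not_eq_true] at hb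
      rw [hb, cond_false, tb_land, Bool.and_eq_true] at h
      refine ⟨(ih i h.2).1, ?_⟩
      intro M' hM' hb'
      rcases List.mem_cons.1 hM' with rfl | hM'
      · exact h.1
      · exact (ih i h.2).2 M' hM' hb'

theorem beq_ne_of_mem {M : ℕ} {e : E9} (h : e ∈ ds M) :
    Nat.beq (Nat.land M (on (code e))) 0 = false := by
  by_contra hc
  rw [Bool.not_eq_false] at hc
  exact not_of_beq hc h

theorem domi_sound {a w C : ℕ} {L : List ℕ} (hL : Lines a w L) {e : E9}
    (h : domi a C L (code e) = true) (he : ∃ S ∈ fam a w, e ∈ S) :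
    (C.testBit (code e) = true) ∨ ∃ e', (C.testBit (code e') = true ∧ e' ∉ ds a) ∧
      ∀ S ∈ fam a w, e ∈ S → e' ∈ S := by
  obtain ⟨S, ⟨K, hK, hal, rfl⟩, heS⟩ := he
  rw [Finset.mem_sdiff] at heS
  rcases cond_tt (show cond (bt (Nat.lor a C) (code e)) true _ = true from h) with h1 | h1
  · left
    rw [bt_eq, tb_lor, Bool.or_eq_true] at h1
    rcases h1 with h1 | h1
    · exact absurd (mem_ds.2 h1) heS.2
    · exact h1
  · right
    obtain ⟨M, hM, hMK⟩ := hL.2 K hK hal
    have heM : e ∈ ds M := by rw [hMK]; exact heS.1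
    by_cases hb : Nat.beq (Nat.land (inter (on (code e)) L) (sdf C a)) 0 = true
    · rw [hb, cond_true] at h1
      have h2 := allL_all h1 M hM
      have h3 := beq_ne_of_mem heM
      rw [h3] at h2
      exact absurd h2 (by decide)
    · rw [Bool.not_eq_true] at hb
      obtain ⟨i, h2, h3⟩ := land_ne hb
      obtain ⟨h4, h5⟩ := inter_sound _ _ _ h2
      obtain ⟨e', rfl, _⟩ := Sub_UT i h4
      rw [tb_sdf, Bool.and_eq_true] at h3
      refine ⟨e', ⟨h3.1, ?_⟩, ?_⟩
      · intro h'
        rw [mem_ds.1 h'] at h3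
        exact absurd h3.2 (by decide)
      · rintro S ⟨K1, hK1, hal1, rfl⟩ he1
        rw [Finset.mem_sdiff] at he1 ⊢
        obtain ⟨M1, hM1, hMK1⟩ := hL.2 K1 hK1 hal1
        refine ⟨?_, ?_⟩
        · rw [← hMK1, mem_ds]
          exact h5 M1 hM1 (beq_ne_of_mem (by rw [hMK1]; exact he1.1))
        · intro h'
          rw [mem_ds.1 h'] at h3
          exact absurd h3.2 (by decide)

theorem chk_sound {T : Tab} {n j0 s : ℕ} (hg : ∀ j', j0 < j' → j' < n → GoodE T j')
    (h : chk T n j0 s = true) : GoodE T j0 := by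
  have h0 : chk T n j0 s = tget T j0 (fun a f =>
    (fun W =>
      alv a W Ks [] (fun L =>
        cond (allL (fun K => cond (Nat.beq (sdf (Nat.land K UT) a) 0) false true) L)
          (recs T j0 n a L 64 s 0 (fun C => allL (domi a C L) UL)) false))
      (dead a f)) := rfl
  rw [h0, tget_eq] at h
  unfold GoodE
  generalize (hdr T j0).1 = a at h ⊢
  generalize (hdr T j0).2 = f at h ⊢
  simp only at h
  rw [alv_eq] at h
  have hL := alv_lines a (dead a f)
  generalize alvL a (dead a f) Ks [] = L at h hL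
  generalize dead a f = w at hL ⊢
  obtain ⟨h1, h2⟩ := cond_ff h
  obtain ⟨C, hC, hall⟩ := recs_sound hL hg _ _ _ h2
  have hC' := allL_all hC
  refine BW.dom Finset.univ (fun S _ => Finset.subset_univ S) ?_
    (fun e => C.testBit (code e) = true) ?_ ?_
  · rintro ⟨K, hK, hal, h3⟩
    obtain ⟨M, hM, hMK⟩ := hL.2 K hK hal
    have h4 := allL_all h1 M hM
    obtain ⟨h5, _⟩ := Pool.Agent.K4G.cond_nf (show cond (Nat.beq (sdf (Nat.land M UT) a) 0) false
      true = true from h4)
    have h6 : ∃ i, (sdf (Nat.land M UT) a).testBit i = true := by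
      by_contra hc
      push Not at hc
      have : sdf (Nat.land M UT) a = 0 := by
        apply Nat.eq_of_testBit_eq
        intro i
        rw [Nat.zero_testBit]
        simpa using hc i
      rw [this] at h5
      exact absurd h5 (by decide)
    obtain ⟨i, hi⟩ := h6
    rw [tb_sdf, Bool.and_eq_true, tb_land, Bool.and_eq_true] at hi
    obtain ⟨e, rfl, _⟩ := Sub_UT i hi.1.2
    have : e ∈ ds K \ ds a := by
      rw [Finset.mem_sdiff, ← hMK]
      refine ⟨mem_ds.2 hi.1.1, ?_⟩
      intro h'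
      rw [mem_ds.1 h'] at hi
      exact absurd hi.2 (by decide)
    rw [← h3] at this
    simp at this
  · intro e he
    have hcode : code e ∈ UL := by
      obtain ⟨S, ⟨K, hK, _, rfl⟩, heS⟩ := he
      rw [Finset.mem_sdiff] at heS
      exact mem_UL.2 (UT_code (ds_nd (Ks_sub K hK) heS.1))
    rcases domi_sound hL (hC' _ hcode) he with h3 | ⟨e', h3, h4⟩
    · exact Or.inl h3
    · exact Or.inr ⟨e', h3.1, h4⟩
  · intro e _ he
    rcases hall e he with h3 | h3
    · rw [Nat.zero_testBit] at h3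
      exact absurd h3 (by decide)
    · exact h3

/-! ### the certificate -/

/-- the entries from `a` to `b` are checked -/
def Ok (T : Tab) (n a b : ℕ) : Prop := ∀ j, a ≤ j → j < b → ∃ s, chk T n j s = true

theorem ok_of {T : Tab} {n : ℕ} : ∀ (l : List ℕ) (a : ℕ), chkL T n l a = true →
    ∀ b, b = a + l.length → Ok T n a b := by
  intro l
  induction l with
  | nil =>
    intro a _ b hb j h1 h2
    simp at hb
    omega
  | cons s l ih =>
    intro a h b hb j h1 h2
    obtain ⟨h3, h4⟩ := cond_ff (show cond (chk T n a s) (chkL T n l (a + 1)) false = true from h)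
    by_cases hj : j = a
    · rw [hj]; exact ⟨s, h3⟩
    · rw [List.length_cons] at hb
      exact ih (a + 1) h4 b (by omega) j (by omega) h2

theorem Ok.trans {T : Tab} {n a b c : ℕ} (h1 : Ok T n a b) (h2 : Ok T n b c) : Ok T n a c := by
  intro j ha hc
  by_cases hb : j < b
  · exact h1 j ha hb
  · exact h2 j (by omega) hc

theorem good_all {T : Tab} {n : ℕ} (h : Ok T n 0 n) : ∀ j < n, GoodE T j := by
  have key : ∀ k, ∀ j, j < n → n ≤ j + k → GoodE T j := by
    intro k
    induction k with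
    | zero => intro j h1 h2; omega
    | succ k ih =>
      intro j hj hjk
      obtain ⟨s, hs⟩ := h j (by omega) hj
      exact chk_sound (fun j' h1 h2 => ih j' h2 (by omega)) hs
  intro j hj
  exact key n j hj (by omega)

end Pool.Agent.K4B
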