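import Pool.Agent.Lib_helper31.K4B.Vec

/-!
Soundness of the fast checker.
-/

namespace Pool.Agent.K4B

open Pool.Agent.K4G (bt nib pmask bt_eq tb_lor tb_land tb_xor tb_shl beq_true ble_true perm_sound)

theorem brec_ff {b x : Bool} (h : @Bool.rec (fun _ => Bool) false x b = true) :
    b = true ∧ x = true := by
  cases b
  · exact absurd (show false = true from h) (by decide)
  · exact ⟨rfl, h⟩

theorem brec_nf {b x : Bool} (h : @Bool.rec (fun _ => Bool) x false b = true) :
    b = false ∧ x = true := by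
  cases b
  · exact ⟨rfl, h⟩
  · exact absurd (show false = true from h) (by decide)

theorem brec_tt {b x : Bool} (h : @Bool.rec (fun _ => Bool) x true b = true) :
    b = true ∨ x = true := by
  cases b
  · exact Or.inr h
  · exact Or.inl rfl

/-! ### lists of edges -/

/-- the entry `c x y` is in the list -/
noncomputable def inEL (l : EL) (c x y : ℕ) : Bool :=
  EL.rec (motive := fun _ => Bool) false
    (fun c' x' y' _ ih => or (and (Nat.beq c c') (and (Nat.beq x x') (Nat.beq y y'))) ih) l

/-- the codes of a list -/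
noncomputable def codes (l : EL) : List ℕ :=
  EL.rec (motive := fun _ => List ℕ) [] (fun c _ _ _ ih => c :: ih) l

/-- the list is well formed -/
noncomputable def wfb (l : EL) : Bool :=
  EL.rec (motive := fun _ => Bool) true
    (fun c x y t ih => and ih (and (Nat.blt x y) (and (Nat.blt y 9)
      (and (Nat.beq c (9 * x + y)) (not ((codes t).contains c)))))) l

theorem ELs_wf : wfb ELs = true := by decide +kernel

theorem ELs_codes : codes ELs = UL := by decide +kernel

theorem ELs_in : ∀ x y : Fin 9, x < y → inEL ELs (9 * x + y) x y = true := by decide +kernel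

theorem wfb_cons {c x y : ℕ} {t : EL} (h : wfb (.cons c x y t) = true) :
    wfb t = true ∧ x < y ∧ y < 9 ∧ c = 9 * x + y ∧ c ∉ codes t := by
  have h0 : wfb (.cons c x y t) = and (wfb t) (and (Nat.blt x y) (and (Nat.blt y 9)
      (and (Nat.beq c (9 * x + y)) (not ((codes t).contains c))))) := rfl
  rw [h0, Bool.and_eq_true, Bool.and_eq_true, Bool.and_eq_true, Bool.and_eq_true] at h
  obtain ⟨h1, h2, h3, h4, h5⟩ := h
  refine ⟨h1, ?_, ?_, beq_true h4, ?_⟩
  · simpa using h2
  · simpa using h3
  · intro h6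
    have : (codes t).contains c = true := by simpa using h6
    rw [this] at h5
    exact absurd h5 (by decide)

theorem inEL_cons {c x y c' x' y' : ℕ} {t : EL} (h : inEL (.cons c' x' y' t) c x y = true) :
    (c = c' ∧ x = x' ∧ y = y') ∨ inEL t c x y = true := by
  have h0 : inEL (.cons c' x' y' t) c x y = or (and (Nat.beq c c') (and (Nat.beq x x')
    (Nat.beq y y'))) (inEL t c x y) := rfl
  rw [h0, Bool.or_eq_true, Bool.and_eq_true, Bool.and_eq_true] at h
  rcases h with ⟨h1, h2, h3⟩ | h
  · exact Or.inl ⟨beq_true h1, beq_true h2, beq_true h3⟩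
  · exact Or.inr h

theorem inEL_wf : ∀ (l : EL), wfb l = true → ∀ c x y, inEL l c x y = true →
    x < y ∧ y < 9 ∧ c = 9 * x + y := by
  intro l
  induction l with
  | nil => intro _ c x y h; exact absurd (show false = true from h) (by decide)
  | cons c' x' y' t ih =>
    intro hw c x y h
    obtain ⟨h1, h2, h3, h4, _⟩ := wfb_cons hw
    rcases inEL_cons h with ⟨rfl, rfl, rfl⟩ | h
    · exact ⟨h2, h3, h4⟩
    · exact ih h1 c x y h

/-- an entry as an edge -/
theorem ent_edge {c x y : ℕ} (h1 : x < y) (h2 : y < 9) (h3 : c = 9 * x + y) :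
    ∃ a b : Fin 9, a ≠ b ∧ (a : ℕ) = x ∧ (b : ℕ) = y ∧ code s(a, b) = c := by
  refine ⟨⟨x, by omega⟩, ⟨y, h2⟩, ?_, rfl, rfl, ?_⟩
  · intro h; rw [Fin.mk.injEq] at h; omega
  · rw [code_mk]
    show 9 * min x y + max x y = c
    rw [min_eq_left h1.le, max_eq_right h1.le, h3]

theorem ELs_mem {e : E9} (he : ¬ e.IsDiag) : ∃ a b : Fin 9, a ≠ b ∧ e = s(a, b) ∧
    inEL ELs (code e) a b = true := by
  induction e using Sym2.ind with | _ x y => ?_
  rw [Sym2.mk_isDiag_iff] at he
  rcases lt_or_gt_of_ne he with h | h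
  · refine ⟨x, y, he, rfl, ?_⟩
    have := ELs_in x y h
    rw [code_mk, min_eq_left (by exact_mod_cast h.le), max_eq_right (by exact_mod_cast h.le)]
    exact this
  · refine ⟨y, x, Ne.symm he, Sym2.eq_swap, ?_⟩
    have := ELs_in y x h
    rw [code_mk, min_eq_right (by exact_mod_cast h.le), max_eq_left (by exact_mod_cast h.le)]
    exact this

/-! ### the weights of a position -/

theorem ONE_tab : Nat.beq ONE (vecL Ks (fun _ => 1)) = true := by decide +kernel

theorem vec0_sound (A F : ℕ) : ∀ l : EL, wfb l = true →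
    VS (vec0 A F l) (fun K => ∀ c ∈ codes l, K.testBit c = true → A.testBit c = true ∨
      F.testBit c = true) ((ds A).filter (fun e => code e ∈ codes l)) := by
  intro l
  induction l with
  | nil =>
    intro _
    have h0 : vec0 A F .nil = ONE := rfl
    have h1 : codes .nil = [] := rfl
    unfold VS
    rw [h0, h1, beq_true ONE_tab]
    apply vecL_congr
    intro K _
    unfold gw
    rw [if_pos (by simp)]
    simp
  | cons c x y t ih =>
    intro hw
    obtain ⟨h1, h2, h3, h4, h5⟩ := wfb_cons hw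
    have ih' := ih h1
    obtain ⟨x', y', hxy, hx, hy, hc⟩ := ent_edge h2 h3 h4
    have h6 : codes (.cons c x y t) = c :: codes t := rfl
    have hm : VM (ME x y) (fun K => s(x', y') ∈ ds K) := by
      rw [← hx, ← hy]; exact VM_ME hxy
    have h0 : vec0 A F (.cons c x y t) = @Bool.rec (fun _ => ℕ)
      (@Bool.rec (fun _ => ℕ) (kil (vec0 A F t) (ME x y)) (vec0 A F t) (bt F c))
        (dbl (vec0 A F t) (ME x y)) (bt A c) := rfl
    rw [h0, h6, bt_eq, bt_eq]
    have hmem : ∀ K, s(x', y') ∈ ds K ↔ K.testBit c = true := by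
      intro K; rw [mem_ds, hc]
    by_cases hA : A.testBit c = true
    · rw [hA]
      have hn : s(x', y') ∉ (ds A).filter (fun e => code e ∈ codes t) := by
        rw [Finset.mem_filter, hc]
        exact fun h' => h5 h'.2
      refine (ih'.dbl hm hn).congr ?_ ?_
      · intro K _
        constructor
        · intro h7 c' hc' hK
          rcases List.mem_cons.1 hc' with rfl | hc'
          · exact Or.inl hA
          · exact h7 c' hc' hK
        · intro h7 c' hc' hK
          exact h7 c' (List.mem_cons_of_mem _ hc') hK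
      · intro K _
        congr 1
        ext e
        rw [Finset.mem_insert, Finset.mem_filter, Finset.mem_filter, List.mem_cons]
        constructor
        · rintro (rfl | h7)
          · exact ⟨(hmem A).2 hA, Or.inl hc⟩
          · exact ⟨h7.1, Or.inr h7.2⟩
        · rintro ⟨h7, h8 | h8⟩
          · left; rw [← hc] at h8; exact code_inj h8
          · exact Or.inr ⟨h7, h8⟩
    · have hA' := hA
      rw [Bool.not_eq_true] at hA'
      rw [hA']
      have hS : ∀ K ∈ Ks, ds K ∩ (ds A).filter (fun e => code e ∈ codes t) =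
          ds K ∩ (ds A).filter (fun e => code e ∈ c :: codes t) := by
        intro K _
        congr 1
        ext e
        rw [Finset.mem_filter, Finset.mem_filter, List.mem_cons]
        constructor
        · rintro ⟨h7, h8⟩; exact ⟨h7, Or.inr h8⟩
        · rintro ⟨h7, h8 | h8⟩
          · rw [mem_ds, h8] at h7; exact absurd h7 hA
          · exact ⟨h7, h8⟩
      by_cases hF : F.testBit c = true
      · rw [hF]
        refine ih'.congr ?_ hS
        intro K _
        constructor
        · intro h7 c' hc' hK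
          rcases List.mem_cons.1 hc' with rfl | hc'
          · exact Or.inr hF
          · exact h7 c' hc' hK
        · intro h7 c' hc' hK
          exact h7 c' (List.mem_cons_of_mem _ hc') hK
      · have hF' := hF
        rw [Bool.not_eq_true] at hF'
        rw [hF']
        refine (ih'.kil hm).congr ?_ hS
        intro K _
        rw [hmem]
        constructor
        · rintro ⟨h7, h8⟩ c' hc' hK
          rcases List.mem_cons.1 hc' with rfl | hc'
          · exact absurd hK h8
          · exact h7 c' hc' hK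
        · intro h7
          refine ⟨fun c' hc' hK => h7 c' (List.mem_cons_of_mem _ hc') hK, ?_⟩
          intro hK
          rcases h7 c List.mem_cons_self hK with h8 | h8
          · exact hA h8
          · exact hF h8

theorem vec_sound (a f : ℕ) :
    VS (vec0 a f ELs) (fun K => ∀ e ∈ ds K, e ∉ ds (dead a f)) (ds a) := by
  refine (vec0_sound a f ELs ELs_wf).congr ?_ ?_
  · intro K hK
    constructor
    · intro h e he hd
      unfold dead at hd
      rw [ds_sdf, Finset.mem_sdiff, ds_lor, Finset.mem_union, not_or] at hd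
      have h1 : code e ∈ codes ELs := by
        rw [ELs_codes]; exact mem_UL.2 (UT_code (ds_nd (Ks_sub K hK) he))
      rcases h _ h1 (mem_ds.1 he) with h2 | h2
      · exact hd.2.1 (mem_ds.2 h2)
      · exact hd.2.2 (mem_ds.2 h2)
    · intro h c hc hKc
      rw [ELs_codes] at hc
      obtain ⟨e, rfl, hnd⟩ := Sub_UT c (mem_UL.1 hc)
      have h1 := h e (mem_ds.2 hKc)
      unfold dead at h1
      rw [ds_sdf, Finset.mem_sdiff, ds_lor, Finset.mem_union] at h1
      by_contra hc'
      push Not at hc'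
      apply h1
      refine ⟨mem_ds.2 (UT_code hnd), ?_⟩
      rintro (h2 | h2)
      · exact hc'.1 (mem_ds.1 h2)
      · exact hc'.2 (mem_ds.1 h2)
  · intro K hK
    ext e
    rw [Finset.mem_inter, Finset.mem_inter, Finset.mem_filter]
    constructor
    · rintro ⟨h1, h2, _⟩; exact ⟨h1, h2⟩
    · rintro ⟨h1, h2⟩
      refine ⟨h1, h2, ?_⟩
      rw [ELs_codes]; exact mem_UL.2 (UT_code (ds_nd (Ks_sub K hK) h1))

/-! ### pairs -/

theorem gp_step {A1 P : ℕ} {qs : List ℕ} {ps : List (E9 × E9)} (h : GP A1 P qs ps) {e1 e2 : E9}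
    (hd1 : ¬ e1.IsDiag) (hd2 : ¬ e2.IsDiag) (hne : e1 ≠ e2)
    (hq : Nat.beq (Nat.land (Nat.lor (on (code e1)) (on (code e2))) (Nat.lor A1 P)) 0 = true) :
    GP A1 (Nat.lor P (Nat.lor (on (code e1)) (on (code e2))))
      (Nat.lor (on (code e1)) (on (code e2)) :: qs) ((e1, e2) :: ps) ∧
      ∀ e, e = e1 ∨ e = e2 → e ∉ ds A1 ∧ e ∉ els ps := by
  obtain ⟨g1, g2, g3, g4, g5⟩ := h
  have hout : ∀ e, e = e1 ∨ e = e2 → e ∉ ds A1 ∧ e ∉ els ps := by
    intro e he
    have hem : (Nat.lor (on (code e1)) (on (code e2))).testBit (code e) = true := by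
      have := ds_pm (e1, e2)
      have h' : e ∈ ds (pm (e1, e2)) := by
        rw [this]
        rcases he with rfl | rfl <;> simp
      exact mem_ds.1 h'
    have h6 := land_zero hq (code e)
    rw [tb_lor A1 P] at h6
    constructor
    · intro h'
      exact h6 ⟨hem, by rw [mem_ds.1 h']; rfl⟩
    · intro h'
      rw [← g3] at h'
      exact h6 ⟨hem, by rw [mem_ds.1 h', Bool.or_true]⟩
  refine ⟨⟨?_, ?_, ?_, ?_, ?_⟩, hout⟩
  · rw [List.map_cons, ← g1]; rfl
  · refine ⟨hne, ?_, g2⟩
    intro q hq'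
    have h1 := (hout e1 (Or.inl rfl)).2
    have h2 := (hout e2 (Or.inr rfl)).2
    rw [mem_els] at h1 h2
    refine ⟨?_, ?_, ?_, ?_⟩
    · intro h'; exact h1 ⟨q, hq', Or.inl h'⟩
    · intro h'; exact h1 ⟨q, hq', Or.inr h'⟩
    · intro h'; exact h2 ⟨q, hq', Or.inl h'⟩
    · intro h'; exact h2 ⟨q, hq', Or.inr h'⟩
  · rw [ds_lor, g3]
    have h7 : ds (Nat.lor (on (code e1)) (on (code e2))) = {e1, e2} := ds_pm (e1, e2)
    rw [h7]
    ext e
    rw [Finset.mem_union, mem_els, mem_els]
    simp only [List.mem_cons, Finset.mem_insert, Finset.mem_singleton]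
    constructor
    · rintro (⟨p, hp, h'⟩ | h')
      · exact ⟨p, Or.inr hp, h'⟩
      · exact ⟨(e1, e2), Or.inl rfl, h'⟩
    · rintro ⟨p, rfl | hp, h'⟩
      · exact Or.inr h'
      · exact Or.inl ⟨p, hp, h'⟩
  · intro e he
    rw [mem_els] at he
    obtain ⟨p, hp, h'⟩ := he
    rcases List.mem_cons.1 hp with rfl | hp
    · exact (hout e h').1
    · exact g4 e (mem_els.2 ⟨p, hp, h'⟩)
  · intro i hi
    rw [tb_lor, Bool.or_eq_true, tb_lor, Bool.or_eq_true, tb_on, tb_on, decide_eq_true_eq,
      decide_eq_true_eq] at hi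
    rcases hi with hi | rfl | rfl
    · exact g5 i hi
    · exact UT_code hd1
    · exact UT_code hd2

/-- no pair is contained in the line -/
def NP (ps : List (E9 × E9)) (K : ℕ) : Prop := ∀ p ∈ ps, ¬ (p.1 ∈ ds K ∧ p.2 ∈ ds K)

theorem prv_sound {A1 : ℕ} {q0 : ℕ → Prop} {k : ℕ → ℕ → List ℕ → ℕ → Bool} :
    ∀ (m s P : ℕ) (qs : List ℕ) (v : ℕ) (ps : List (E9 × E9)), GP A1 P qs ps →
      VS v (fun K => q0 K ∧ NP ps K) (ds A1 ∪ els ps) → prv A1 m s P qs v k = true →
    ∃ s' P' qs' v' ps', GP A1 P' qs' ps' ∧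
      VS v' (fun K => q0 K ∧ NP ps' K) (ds A1 ∪ els ps') ∧ k s' P' qs' v' = true := by
  intro m
  induction m with
  | zero => intro s P qs v ps h hv hk; exact ⟨s, P, qs, v, ps, h, hv, hk⟩
  | succ m ih =>
    intro s P qs v ps h hv hk
    have h0 : prv A1 (m + 1) s P qs v k =
      (fun x y =>
        (fun q mx my =>
          @Bool.rec (fun _ => Bool) false
            (@Bool.rec (fun _ => Bool) false
              (@Bool.rec (fun _ => Bool)
                (@Bool.rec (fun _ => Bool) false
                  (prv A1 m (Nat.shiftRight s 16) (Nat.lor P q) (q :: qs)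
                    (dbl (dbl (kil v (Nat.land mx my)) mx) my) k)
                  (Nat.beq (Nat.land q (Nat.lor A1 P)) 0))
                false (Nat.beq x y))
              (bt UT y))
            (bt UT x))
          (Nat.lor (on x) (on y)) (MV x) (MV y))
        (Nat.land s 255) (Nat.land (Nat.shiftRight s 8) 255) := rfl
    rw [h0] at hk
    generalize Nat.land s 255 = x at hk
    generalize Nat.land (Nat.shiftRight s 8) 255 = y at hk
    simp only at hk
    obtain ⟨hx, hk⟩ := brec_ff hk
    obtain ⟨hy, hk⟩ := brec_ff hk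
    obtain ⟨hxy, hk⟩ := brec_nf hk
    obtain ⟨hq, hk⟩ := brec_ff hk
    obtain ⟨e1, rfl, hd1⟩ := bt_UT hx
    obtain ⟨e2, rfl, hd2⟩ := bt_UT hy
    have hne : e1 ≠ e2 := by
      rintro rfl
      have : Nat.beq (code e1) (code e1) = true := Nat.beq_refl _
      rw [this] at hxy
      exact absurd hxy (by decide)
    obtain ⟨hgp, hout⟩ := gp_step h hd1 hd2 hne hq
    have hm1 := VM_MV hd1
    have hm2 := VM_MV hd2
    have h1 := hout e1 (Or.inl rfl)
    have h2 := hout e2 (Or.inr rfl)
    have n1 : e1 ∉ ds A1 ∪ els ps := by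
      rw [Finset.mem_union, not_or]; exact h1
    have n2 : e2 ∉ insert e1 (ds A1 ∪ els ps) := by
      rw [Finset.mem_insert, Finset.mem_union, not_or, not_or]
      exact ⟨fun h' => hne h'.symm, h2⟩
    have hv1 := ((hv.kil (hm1.land hm2)).dbl hm1 n1).dbl hm2 n2
    refine ih _ _ _ _ _ hgp (hv1.congr ?_ ?_) hk
    · intro K _
      constructor
      · rintro ⟨⟨h3, h4⟩, h5⟩
        refine ⟨h3, ?_⟩
        intro p hp
        rcases List.mem_cons.1 hp with rfl | hp
        · exact h5
        · exact h4 p hp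
      · rintro ⟨h3, h4⟩
        exact ⟨⟨h3, fun p hp => h4 p (List.mem_cons_of_mem _ hp)⟩, h4 (e1, e2) List.mem_cons_self⟩
    · intro K _
      congr 1
      ext e
      simp only [Finset.mem_insert, Finset.mem_union, mem_els, List.mem_cons]
      constructor
      · rintro (rfl | rfl | h3 | ⟨p, hp, h3⟩)
        · exact Or.inr ⟨(e1, e), Or.inl rfl, Or.inr rfl⟩
        · exact Or.inr ⟨(e, e2), Or.inl rfl, Or.inl rfl⟩
        · exact Or.inl h3
        · exact Or.inr ⟨p, Or.inr hp, h3⟩
      · rintro (h3 | ⟨p, rfl | hp, h3⟩)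
        · exact Or.inr (Or.inr (Or.inl h3))
        · rcases h3 with h3 | h3
          · exact Or.inr (Or.inl h3)
          · exact Or.inl h3
        · exact Or.inr (Or.inr (Or.inr ⟨p, hp, h3⟩))

/-- the sets after the two moves and the pairs -/
theorem rest_ofV {a w : ℕ} {e f : E9} (hfa : f ∉ ds a)
    {ps : List (E9 × E9)} (hps : ∀ x ∈ els ps, x ∉ ds (Nat.lor a (on (code e))))
    {T : Finset E9}
    (hT : ∃ S ∈ nx (fam a w) e f, (∀ p ∈ ps, ¬ (p.1 ∈ S ∧ p.2 ∈ S)) ∧ T = S \ els ps) :
    ∃ K ∈ Ks, (((∀ x ∈ ds K, x ∉ ds w) ∧ f ∉ ds K) ∧ NP ps K) ∧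
      T = ds K \ (ds (Nat.lor a (on (code e))) ∪ els ps) := by
  obtain ⟨S, ⟨S0, ⟨K, hK, hal, rfl⟩, hf, rfl⟩, hc, rfl⟩ := hT
  refine ⟨K, hK, ⟨⟨hal, ?_⟩, ?_⟩, ?_⟩
  · intro h'
    exact hf (Finset.mem_sdiff.2 ⟨h', hfa⟩)
  · rintro p hp ⟨h1, h2⟩
    apply hc p hp
    have h3 := hps p.1 (mem_els.2 ⟨p, hp, Or.inl rfl⟩)
    have h4 := hps p.2 (mem_els.2 ⟨p, hp, Or.inr rfl⟩)
    rw [ds_lor, ds_on, Finset.mem_union, Finset.mem_singleton, not_or] at h3 h4
    simp only [Finset.mem_erase, Finset.mem_sdiff]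
    exact ⟨⟨h3.2, h1, h3.1⟩, ⟨h4.2, h2, h4.1⟩⟩
  · ext x
    rw [ds_lor, ds_on]
    simp only [Finset.mem_erase, Finset.mem_sdiff, Finset.mem_union, Finset.mem_singleton]
    tauto

theorem potentialV {a w : ℕ} {e f : E9} (hfa : f ∉ ds a) {P : ℕ} {ps : List (E9 × E9)}
    {qs : List ℕ} (hgp : GP (Nat.lor a (on (code e))) P qs ps) {u : ℕ}
    (hu : VS u (fun K => ((∀ x ∈ ds K, x ∉ ds w) ∧ f ∉ ds K) ∧ NP ps K)
      (ds (Nat.lor a (on (code e))) ∪ els ps))
    (h : Nat.ble (Nat.succ (Nat.mod u 65535)) 32 = true) : BW (nx (fam a w) e f) := by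
  obtain ⟨_, g2, g3, g4, g5⟩ := hgp
  have : Inhabited E9 := ⟨s(0, 1)⟩
  rw [hu.sum] at h
  obtain ⟨Q, h1, h2⟩ := wt_gw (p := fun K => ((∀ x ∈ ds K, x ∉ ds w) ∧ f ∉ ds K) ∧ NP ps K)
    (S := ds (Nat.lor a (on (code e))) ∪ els ps) Ks (fun _ h => h)
  have hw : wt Q < 1 / 2 := by
    have h3 := ble_true h
    have h4 : (((Ks.map (gw (fun K => ((∀ x ∈ ds K, x ∉ ds w) ∧ f ∉ ds K) ∧ NP ps K)
      (ds (Nat.lor a (on (code e))) ∪ els ps))).sum : ℕ) : ℚ) + 1 ≤ 32 := by
      exact_mod_cast h3
    linarith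
  apply BW.pairList Finset.univ ps g2 _ (fun S _ => Finset.subset_univ S)
  refine (BW.pot Finset.univ (fun S _ => Finset.subset_univ S) hw).mono Finset.univ
    (fun S _ => Finset.subset_univ S) ?_
  intro T' hT'
  obtain ⟨K, hK, hq, rfl⟩ := rest_ofV hfa g4 hT'
  exact ⟨_, h1 K hK hq, subset_rfl⟩

/-! ### links -/

theorem lkt_all {p AP v a f : ℕ} : ∀ l : EL, lkt p AP v a f l = true → ∀ c x y,
    inEL l c x y = true → a.testBit c = true ∨
      (f.testBit c = true ∧ AP.testBit (cdu (nib p x) (nib p y)) = false) ∨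
      Nat.beq (Nat.land v (ME (nib p x) (nib p y))) 0 = true := by
  intro l
  induction l with
  | nil => intro _ c x y h; exact absurd (show false = true from h) (by decide)
  | cons c' x' y' t ih =>
    intro h c x y hi
    have h0 : lkt p AP v a f (.cons c' x' y' t) = @Bool.rec (fun _ => Bool)
      (@Bool.rec (fun _ => Bool) false (lkt p AP v a f t)
        (@Bool.rec (fun _ => Bool) (Nat.beq (Nat.land v (ME (nib p x') (nib p y'))) 0)
          (@Bool.rec (fun _ => Bool) true (Nat.beq (Nat.land v (ME (nib p x') (nib p y'))) 0)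
            (bt AP (cdu (nib p x') (nib p y')))) (bt f c'))) (lkt p AP v a f t) (bt a c') := rfl
    rw [h0, bt_eq, bt_eq, bt_eq] at h
    rcases inEL_cons hi with ⟨rfl, rfl, rfl⟩ | hi
    · by_cases ha : a.testBit c = true
      · exact Or.inl ha
      · rw [Bool.not_eq_true] at ha
        rw [ha] at h
        obtain ⟨h1, _⟩ := brec_ff h
        by_cases hf : f.testBit c = true
        · rw [hf] at h1
          by_cases hp : AP.testBit (cdu (nib p x) (nib p y)) = true
          · rw [hp] at h1
            exact Or.inr (Or.inr h1)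
          · rw [Bool.not_eq_true] at hp
            exact Or.inr (Or.inl ⟨hf, hp⟩)
        · rw [Bool.not_eq_true] at hf
          rw [hf] at h1
          exact Or.inr (Or.inr h1)
    · refine ih ?_ c x y hi
      by_cases ha : a.testBit c' = true
      · rw [ha] at h; exact h
      · rw [Bool.not_eq_true] at ha
        rw [ha] at h
        exact (brec_ff h).2

theorem lkv_sound {T : Tab} {j0 n j p : ℕ} {a w : ℕ} {e f : E9}
    (hfa : f ∉ ds a) {P : ℕ} {ps : List (E9 × E9)} {qs : List ℕ}
    (hgp : GP (Nat.lor a (on (code e))) P qs ps)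
    (hg : ∀ j', j0 < j' → j' < n → GoodE T j') {u : ℕ}
    (hu : VS u (fun K => ((∀ x ∈ ds K, x ∉ ds w) ∧ f ∉ ds K) ∧ NP ps K)
      (ds (Nat.lor a (on (code e))) ∪ els ps))
    (h : lkv T j0 n j p (Nat.lor (Nat.lor a (on (code e))) P) u = true) :
    BW (nx (fam a w) e f) := by
  obtain ⟨_, g2, g3, g4, g5⟩ := hgp
  obtain ⟨h1, h⟩ := brec_ff (show @Bool.rec (fun _ => Bool) false
    (@Bool.rec (fun _ => Bool) false
      (@Bool.rec (fun _ => Bool) false
        (tget T j (fun a2 f2 => lkt p (Nat.lor (Nat.lor a (on (code e))) P) u a2 f2 ELs))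
        (Nat.beq (pmask p 9) 511))
      (Nat.ble (Nat.succ j) n))
    (Nat.ble (Nat.succ j0) j) = true from h)
  obtain ⟨h2, h⟩ := brec_ff h
  obtain ⟨h3, h⟩ := brec_ff h
  rw [tget_eq] at h
  have hgood := hg j (ble_true h1) (ble_true h2)
  obtain ⟨σ, hσ⟩ := exists_perm h3
  unfold GoodE at hgood
  generalize (hdr T j).1 = a' at h hgood
  generalize (hdr T j).2 = f' at h hgood
  have hall := lkt_all _ h
  -- the tests for one edge of an alive line
  have key : ∀ K ∈ Ks, (((∀ x ∈ ds K, x ∉ ds w) ∧ f ∉ ds K) ∧ NP ps K) → ∀ x ∈ ds K,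
      x ∈ ds (rel p a' UL) ∨ (x ∈ ds (rel p f' UL) ∧
        x ∉ ds (Nat.lor a (on (code e))) ∪ els ps) := by
    intro K hK hq x hx
    have hnd := ds_nd (Ks_sub K hK) hx
    obtain ⟨y, rfl⟩ : ∃ y : E9, x = Sym2.map σ y := by
      refine ⟨Sym2.map σ.symm x, ?_⟩
      induction x using Sym2.ind with | _ a b => ?_
      simp [Sym2.map_mk]
    have hnd' : ¬ y.IsDiag := by
      intro h'
      apply hnd
      induction y using Sym2.ind with | _ a b => ?_
      rw [Sym2.mk_isDiag_iff] at h'
      rw [Sym2.map_mk, Sym2.mk_isDiag_iff, h']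
    rw [mem_rel hσ hnd', mem_rel hσ hnd']
    obtain ⟨c, d, hcd, rfl, hin⟩ := ELs_mem hnd'
    have himg : cdu (nib p c) (nib p d) = code (Sym2.map σ s(c, d)) := by
      rw [hσ c, hσ d, Sym2.map_mk, code_mk, cdu_eq]
    rcases hall _ _ _ hin with h4 | ⟨h4, h5⟩ | h4
    · exact Or.inl (mem_ds.2 h4)
    · right
      refine ⟨mem_ds.2 h4, ?_⟩
      rw [himg] at h5
      intro h6
      have h7 : Sym2.map σ s(c, d) ∈ ds (Nat.lor (Nat.lor a (on (code e))) P) := by
        rw [ds_lor _ P, g3]; exact h6
      rw [mem_ds.1 h7] at h5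
      exact absurd h5 (by decide)
    · exfalso
      rw [hσ c, hσ d] at h4
      have hne : σ c ≠ σ d := fun h' => hcd (σ.injective h')
      have := hu.zero (VM_ME hne) h4 K hK hq
      apply this
      rw [Sym2.map_mk] at hx
      exact hx
  apply BW.pairList Finset.univ ps g2 _ (fun S _ => Finset.subset_univ S)
  refine (hgood.image (map_inj σ)).mono Finset.univ (fun S _ => Finset.subset_univ S) ?_
  intro T' hT'
  obtain ⟨K, hK, hq, rfl⟩ := rest_ofV hfa g4 hT'
  obtain ⟨T0, hT0, hT0e⟩ := fam_rel hσ hK (a := a') (f := f') (by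
    intro x hx hd
    rw [ds_sdf, Finset.mem_sdiff, ds_lor, Finset.mem_union] at hd
    rcases key K hK hq x hx with h5 | h5
    · exact hd.2 (Or.inl h5)
    · exact hd.2 (Or.inr h5.1))
  refine ⟨T0.image (Sym2.map σ), ⟨T0, hT0, rfl⟩, ?_⟩
  rw [← hT0e]
  intro x hx
  rw [Finset.mem_sdiff] at hx ⊢
  refine ⟨hx.1, ?_⟩
  rcases key K hK hq x hx.1 with h5 | h5
  · exact absurd h5 hx.2
  · exact h5.2

/-! ### records -/

theorem els_nil : els ([] : List (E9 × E9)) = ∅ := rfl

theorem start_vs {a w v : ℕ} (hv : VS v (fun K => ∀ x ∈ ds K, x ∉ ds w) (ds a)) {e f : E9}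
    (hed : ¬ e.IsDiag) (hfd : ¬ f.IsDiag) (hea : e ∉ ds a) :
    VS (kil (dbl v (MV (code e))) (MV (code f)))
      (fun K => ((∀ x ∈ ds K, x ∉ ds w) ∧ f ∉ ds K) ∧ NP [] K)
      (ds (Nat.lor a (on (code e))) ∪ els []) := by
  refine ((hv.dbl (VM_MV hed) hea).kil (VM_MV hfd)).congr ?_ ?_
  · intro K _
    constructor
    · rintro ⟨h1, h2⟩; exact ⟨⟨h1, h2⟩, fun p hp => by simp at hp⟩
    · rintro ⟨⟨h1, h2⟩, _⟩; exact ⟨h1, h2⟩
  · intro K _
    rw [els_nil, Finset.union_empty, ds_lor, ds_on, Finset.insert_eq, Finset.union_comm]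

theorem rcv_sound {T : Tab} {j0 n a w v : ℕ}
    (hv : VS v (fun K => ∀ x ∈ ds K, x ∉ ds w) (ds a))
    (hg : ∀ j', j0 < j' → j' < n → GoodE T j') {k : ℕ → Bool} : ∀ (fuel s C : ℕ),
    rcv T j0 n a w v fuel s C k = true → ∃ C', k C' = true ∧
      ∀ e : E9, C'.testBit (code e) = true → C.testBit (code e) = true ∨
        ∃ f, f ≠ e ∧ BW (nx (fam a w) e f) := by
  intro fuel
  induction fuel with
  | zero => intro s C h; exact absurd (show false = true from h) (by decide)
  | succ m ih =>
    intro s C h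
    have h0 : rcv T j0 n a w v (m + 1) s C k =
      (fun e f h =>
        @Bool.rec (fun _ => Bool)
          (@Bool.rec (fun _ => Bool) false
            (@Bool.rec (fun _ => Bool) false
              (@Bool.rec (fun _ => Bool)
                (@Bool.rec (fun _ => Bool)
                  (prv (Nat.lor a (on e)) (Nat.shiftRight h 2) (Nat.shiftRight s 24) 0 []
                    (kil (dbl v (MV e)) (MV f))
                    (fun s1 P qs u =>
                      @Bool.rec (fun _ => Bool)
                        (@Bool.rec (fun _ => Bool) false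
                          (rcv T j0 n a w v m (Nat.shiftRight s1 56) (Nat.lor C (on e)) k)
                          (@Bool.rec (fun _ => Bool)
                            (alv a w Ks [] (fun L => lnk T j0 n (Nat.land s1 65535)
                              (Nat.land (Nat.shiftRight s1 16) 0xFFFFFFFFFF)
                              (on f) (Nat.lor (Nat.lor a (on e)) P) qs L))
                            (lkv T j0 n (Nat.land s1 65535)
                              (Nat.land (Nat.shiftRight s1 16) 0xFFFFFFFFFF)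
                              (Nat.lor (Nat.lor a (on e)) P) u)
                            (Nat.beq (Nat.land h 3) 1)))
                        (@Bool.rec (fun _ => Bool) false (rcv T j0 n a w v m s1 (Nat.lor C (on e)) k)
                          (Nat.ble (Nat.succ (Nat.mod u 65535)) 32))
                        (Nat.beq (Nat.land h 3) 0)))
                  false (bt (Nat.lor a (on e)) f))
                false (bt a e))
              (bt UT f))
            (bt UT e))
          (k C) (Nat.beq e 0))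
        (Nat.land s 255) (Nat.land (Nat.shiftRight s 8) 255)
        (Nat.land (Nat.shiftRight s 16) 255) := rfl
    rw [h0] at h
    generalize Nat.land s 255 = x at h
    generalize Nat.land (Nat.shiftRight s 8) 255 = y at h
    generalize Nat.land (Nat.shiftRight s 16) 255 = z at h
    simp only at h
    by_cases hx0 : Nat.beq x 0 = true
    · rw [hx0] at h
      exact ⟨C, h, fun e he => Or.inl he⟩
    rw [Bool.not_eq_true] at hx0
    rw [hx0] at h
    obtain ⟨hx, h⟩ := brec_ff h
    obtain ⟨hy, h⟩ := brec_ff h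
    obtain ⟨hxa, h⟩ := brec_nf h
    obtain ⟨hya, h⟩ := brec_nf h
    obtain ⟨e, rfl, hed⟩ := bt_UT hx
    obtain ⟨f, rfl, hfd⟩ := bt_UT hy
    rw [bt_eq] at hxa hya
    rw [tb_lor, Bool.or_eq_false_iff, tb_on, decide_eq_false_iff_not] at hya
    have hne : f ≠ e := by
      rintro rfl
      exact hya.2 rfl
    have hea : e ∉ ds a := by
      intro h'
      rw [mem_ds.1 h'] at hxa
      exact absurd hxa (by decide)
    have hfa : f ∉ ds a := by
      intro h'
      rw [mem_ds.1 h'] at hya
      exact absurd hya.1 (by decide)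
    obtain ⟨s', P, qs, u, ps, hgp, hu, h⟩ := prv_sound
      (q0 := fun K => (∀ x ∈ ds K, x ∉ ds w) ∧ f ∉ ds K) _ _ _ _ _ [] (gp_nil _)
      (start_vs hv hed hfd hea) h
    have hstep : ∀ s'', rcv T j0 n a w v m s'' (Nat.lor C (on (code e))) k = true →
        BW (nx (fam a w) e f) → ∃ C', k C' = true ∧
      ∀ e : E9, C'.testBit (code e) = true → C.testBit (code e) = true ∨
        ∃ f, f ≠ e ∧ BW (nx (fam a w) e f) := by
      intro s'' h1 h2
      obtain ⟨C', hC', hall⟩ := ih s'' _ h1
      refine ⟨C', hC', ?_⟩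
      intro e' he'
      rcases hall e' he' with h3 | h3
      · rw [tb_lor, Bool.or_eq_true, tb_on, decide_eq_true_eq] at h3
        rcases h3 with h3 | h3
        · exact Or.inl h3
        · rw [← code_inj h3]
          exact Or.inr ⟨f, hne, h2⟩
      · exact Or.inr h3
    by_cases hz : Nat.beq (Nat.land z 3) 0 = true
    · rw [hz] at h
      obtain ⟨h1, h2⟩ := brec_ff h
      exact hstep _ h2 (potentialV hfa hgp hu h1)
    · rw [Bool.not_eq_true] at hz
      rw [hz] at h
      obtain ⟨h1, h2⟩ := brec_ff h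
      refine hstep _ h2 ?_
      by_cases hz1 : Nat.beq (Nat.land z 3) 1 = true
      · rw [hz1] at h1
        exact lkv_sound hfa hgp hg hu h1
      · rw [Bool.not_eq_true] at hz1
        rw [hz1] at h1
        rw [alv_eq] at h1
        obtain rfl := hgp.1
        exact lnk_sound (alv_lines a w) hfa hgp hg h1

/-! ### dominated moves -/

theorem dmv_any {A C m : ℕ} : ∀ l : EL, dmv A C m l = true → ∃ c x y, inEL l c x y = true ∧
    C.testBit c = true ∧ A.testBit c = false ∧ Nat.beq (Nat.land m (ME x y)) m = true := by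
  intro l
  induction l with
  | nil => intro h; exact absurd (show false = true from h) (by decide)
  | cons c x y t ih =>
    intro h
    have h0 : dmv A C m (.cons c x y t) = @Bool.rec (fun _ => Bool) (dmv A C m t)
      (@Bool.rec (fun _ => Bool) (@Bool.rec (fun _ => Bool) (dmv A C m t) true
        (Nat.beq (Nat.land m (ME x y)) m)) (dmv A C m t) (bt A c)) (bt C c) := rfl
    rw [h0, bt_eq, bt_eq] at h
    have hrec : dmv A C m t = true → ∃ c' x' y', inEL (.cons c x y t) c' x' y' = true ∧
        C.testBit c' = true ∧ A.testBit c' = false ∧ Nat.beq (Nat.land m (ME x' y')) m = true := by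
      intro h1
      obtain ⟨c', x', y', h2, h3⟩ := ih h1
      refine ⟨c', x', y', ?_, h3⟩
      show or _ (inEL t c' x' y') = true
      rw [h2, Bool.or_true]
    by_cases hC : C.testBit c = true
    · rw [hC] at h
      by_cases hA : A.testBit c = true
      · rw [hA] at h; exact hrec h
      · rw [Bool.not_eq_true] at hA
        rw [hA] at h
        rcases brec_tt h with h1 | h1
        · refine ⟨c, x, y, ?_, hC, hA, h1⟩
          show or (and (Nat.beq c c) (and (Nat.beq x x) (Nat.beq y y))) (inEL t c x y) = true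
          rw [Nat.beq_refl, Nat.beq_refl, Nat.beq_refl]
          rfl
        · exact hrec h1
    · rw [Bool.not_eq_true] at hC
      rw [hC] at h; exact hrec h

theorem alldom_all {A C v : ℕ} : ∀ l : EL, alldom A C v l = true → ∀ c x y,
    inEL l c x y = true → (Nat.lor A C).testBit c = true ∨
      Nat.beq (Nat.land v (ME x y)) 0 = true ∨ dmv A C (Nat.land v (ME x y)) ELs = true := by
  intro l
  induction l with
  | nil => intro _ c x y h; exact absurd (show false = true from h) (by decide)
  | cons c' x' y' t ih =>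
    intro h c x y hi
    have h0 : alldom A C v (.cons c' x' y' t) = @Bool.rec (fun _ => Bool)
      (@Bool.rec (fun _ => Bool) (@Bool.rec (fun _ => Bool) false (alldom A C v t)
        (dmv A C (Nat.land v (ME x' y')) ELs)) (alldom A C v t)
          (Nat.beq (Nat.land v (ME x' y')) 0))
      (alldom A C v t) (bt (Nat.lor A C) c') := rfl
    rw [h0, bt_eq] at h
    by_cases h1 : (Nat.lor A C).testBit c' = true
    · rw [h1] at h
      rcases inEL_cons hi with ⟨rfl, rfl, rfl⟩ | hi
      · exact Or.inl h1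
      · exact ih h c x y hi
    · rw [Bool.not_eq_true] at h1
      rw [h1] at h
      by_cases h2 : Nat.beq (Nat.land v (ME x' y')) 0 = true
      · rw [h2] at h
        rcases inEL_cons hi with ⟨rfl, rfl, rfl⟩ | hi
        · exact Or.inr (Or.inl h2)
        · exact ih h c x y hi
      · rw [Bool.not_eq_true] at h2
        rw [h2] at h
        obtain ⟨h3, h4⟩ := brec_ff h
        rcases inEL_cons hi with ⟨rfl, rfl, rfl⟩ | hi
        · exact Or.inr (Or.inr h3)
        · exact ih h4 c x y hi

theorem S64_tab : Nat.beq (Nat.mul 64 ONE) (vecL Ks (fun _ => 64)) = true := by decide +kernel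

theorem full_free {v : ℕ} {p : ℕ → Prop} {S : Finset E9} (h1 : VS v p S)
    (h : Nat.beq (Nat.land v (Nat.mul 64 ONE)) 0 = true) : ∀ K ∈ Ks, p K → ∃ e ∈ ds K, e ∉ S := by
  intro K hK hp
  by_contra hc
  push Not at hc
  have h4 : Nat.land v (Nat.mul 64 ONE) = 0 := beq_true h
  unfold VS at h1
  rw [h1, beq_true S64_tab, vecL_land _ _ _ (fun _ h => gw_lt h) (fun _ _ => by norm_num)] at h4
  have h5 := vecL_zero h4 K hK
  have h6 : gw p S K = 64 := by
    unfold gw
    rw [if_pos hp, Finset.inter_eq_left.2 (fun e he => hc e he), Ks_card K hK]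
    norm_num
  simp only [h6] at h5
  exact absurd h5 (by decide)

theorem ckv_sound {T : Tab} {n j0 s : ℕ} (hg : ∀ j', j0 < j' → j' < n → GoodE T j')
    (h : ckv T n j0 s = true) : GoodE T j0 := by
  have h0 : ckv T n j0 s = tget T j0 (fun a f =>
    (fun v =>
      @Bool.rec (fun _ => Bool) false
        (rcv T j0 n a (dead a f) v 64 s 0 (fun C => alldom a C v ELs))
        (Nat.beq (Nat.land v (Nat.mul 64 ONE)) 0))
      (vec0 a f ELs)) := rfl
  rw [h0, tget_eq] at h
  unfold GoodE
  generalize (hdr T j0).1 = a at h ⊢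
  generalize (hdr T j0).2 = f at h ⊢
  simp only at h
  have hv := vec_sound a f
  generalize vec0 a f ELs = v at h hv
  generalize dead a f = w at hv h ⊢
  obtain ⟨h1, h2⟩ := brec_ff h
  obtain ⟨C, hC, hall⟩ := rcv_sound hv hg _ _ _ h2
  have hC' := alldom_all _ hC
  refine BW.dom Finset.univ (fun S _ => Finset.subset_univ S) ?_
    (fun e => C.testBit (code e) = true) ?_ ?_
  · rintro ⟨K, hK, hal, h3⟩
    obtain ⟨e, he, hea⟩ := full_free hv h1 K hK hal
    have : e ∈ ds K \ ds a := Finset.mem_sdiff.2 ⟨he, hea⟩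
    rw [← h3] at this
    simp at this
  · intro e he
    obtain ⟨S, ⟨K, hK, hal, rfl⟩, heS⟩ := he
    rw [Finset.mem_sdiff] at heS
    have hnd := ds_nd (Ks_sub K hK) heS.1
    obtain ⟨x, y, hxy, rfl, hin⟩ := ELs_mem hnd
    rcases hC' _ _ _ hin with h3 | h3 | h3
    · left
      rw [tb_lor, Bool.or_eq_true] at h3
      rcases h3 with h3 | h3
      · exact absurd (mem_ds.2 h3) heS.2
      · exact h3
    · exact absurd heS.1 (hv.zero (VM_ME hxy) h3 K hK hal)
    · right
      obtain ⟨c, x', y', h4, h5, h6, h7⟩ := dmv_any _ h3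
      obtain ⟨h8, h9, h10⟩ := inEL_wf _ ELs_wf _ _ _ h4
      obtain ⟨x2, y2, hxy2, rfl, rfl, h11⟩ := ent_edge h8 h9 h10
      have hsub := (hv.land (VM_ME hxy)).sub (VM_ME hxy2) h7
      refine ⟨s(x2, y2), ?_, ?_⟩
      · rw [h11]; exact h5
      · rintro S ⟨K1, hK1, hal1, rfl⟩ he1
        rw [Finset.mem_sdiff] at he1 ⊢
        refine ⟨hsub K1 hK1 ⟨hal1, he1.1⟩, ?_⟩
        intro h'
        rw [mem_ds, h11, h6] at h'
        exact absurd h' (by decide)
  · intro e _ he
    rcases hall e he with h3 | h3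
    · rw [Nat.zero_testBit] at h3
      exact absurd h3 (by decide)
    · exact h3

/-! ### the certificate -/

/-- the entries from `a` to `b` are checked -/
def OkV (T : Tab) (n a b : ℕ) : Prop := ∀ j, a ≤ j → j < b → ∃ s, ckv T n j s = true

theorem okV_of {T : Tab} {n : ℕ} : ∀ (l : List ℕ) (a : ℕ), ckL T n l a = true →
    ∀ b, b = a + l.length → OkV T n a b := by
  intro l
  induction l with
  | nil =>
    intro a _ b hb j h1 h2
    simp at hb
    omega
  | cons s l ih =>
    intro a h b hb j h1 h2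
    obtain ⟨h3, h4⟩ := brec_ff (show @Bool.rec (fun _ => Bool) false (ckL T n l (a + 1))
      (ckv T n a s) = true from h)
    by_cases hj : j = a
    · rw [hj]; exact ⟨s, h3⟩
    · rw [List.length_cons] at hb
      exact ih (a + 1) h4 b (by omega) j (by omega) h2

theorem OkV.trans {T : Tab} {n a b c : ℕ} (h1 : OkV T n a b) (h2 : OkV T n b c) :
    OkV T n a c := by
  intro j ha hc
  by_cases hb : j < b
  · exact h1 j ha hb
  · exact h2 j (by omega) hc

theorem goodV {T : Tab} {n : ℕ} (h : OkV T n 0 n) : ∀ j < n, GoodE T j := by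
  have key : ∀ k, ∀ j, j < n → n ≤ j + k → GoodE T j := by
    intro k
    induction k with
    | zero => intro j h1 h2; omega
    | succ k ih =>
      intro j hj hjk
      obtain ⟨s, hs⟩ := h j (by omega) hj
      exact ckv_sound (fun j' h1 h2 => ih j' h2 (by omega)) hs
  intro j hj
  exact key n j hj (by omega)

end Pool.Agent.K4B
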