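import Pool.Agent.Lib_helper31.K4B.Sound2
import Pool.Agent.Lib_helper31.K4B.ChkV

/-!
Vectors of line weights.
-/

namespace Pool.Agent.K4B

open Pool.Agent.K4G (bt nib pmask bt_eq tb_lor tb_land tb_xor tb_shl beq_true ble_true perm_sound)

/-- the number with the fields `g K` -/
def vecL (L : List ℕ) (g : ℕ → ℕ) : ℕ := L.foldr (fun K acc => g K + 65536 * acc) 0

theorem vecL_cons (K : ℕ) (L : List ℕ) (g : ℕ → ℕ) :
    vecL (K :: L) g = g K + 65536 * vecL L g := rfl

theorem tb_field {x a : ℕ} (hx : x < 65536) (i : ℕ) :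
    (x + 65536 * a).testBit i = if i < 16 then x.testBit i else a.testBit (i - 16) := by
  have h := Nat.testBit_two_pow_mul_add a (i := 16) (b := x) (by simpa using hx) i
  have h2 : x + 65536 * a = 2 ^ 16 * a + x := by norm_num; omega
  rw [h2]
  exact h

theorem land_field {x y a b : ℕ} (hx : x < 65536) (hy : y < 65536) :
    Nat.land (x + 65536 * a) (y + 65536 * b) = Nat.land x y + 65536 * Nat.land a b := by
  have hxy : Nat.land x y < 65536 := lt_of_le_of_lt Nat.and_le_left hx
  apply Nat.eq_of_testBit_eq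
  intro i
  rw [tb_land, tb_field hx, tb_field hy, tb_field hxy, tb_land, tb_land]
  split_ifs <;> rfl

theorem xor_field {x y a b : ℕ} (hx : x < 65536) (hy : y < 65536) :
    Nat.xor (x + 65536 * a) (y + 65536 * b) = Nat.xor x y + 65536 * Nat.xor a b := by
  have hxy : Nat.xor x y < 65536 := Nat.xor_lt_two_pow (n := 16) hx hy
  apply Nat.eq_of_testBit_eq
  intro i
  rw [tb_xor, tb_field hx, tb_field hy, tb_field hxy, tb_xor, tb_xor]
  split_ifs <;> rfl

theorem vecL_land (g h : ℕ → ℕ) : ∀ L : List ℕ, (∀ K ∈ L, g K < 65536) → (∀ K ∈ L, h K < 65536) →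
    Nat.land (vecL L g) (vecL L h) = vecL L (fun K => Nat.land (g K) (h K)) := by
  intro L
  induction L with
  | nil => intro _ _; exact Nat.and_self 0
  | cons K L ih =>
    intro h1 h2
    rw [vecL_cons, vecL_cons, vecL_cons, land_field (h1 K List.mem_cons_self)
      (h2 K List.mem_cons_self), ih (fun K' h' => h1 K' (List.mem_cons_of_mem _ h'))
      (fun K' h' => h2 K' (List.mem_cons_of_mem _ h'))]

theorem vecL_xor (g h : ℕ → ℕ) : ∀ L : List ℕ, (∀ K ∈ L, g K < 65536) → (∀ K ∈ L, h K < 65536) →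
    Nat.xor (vecL L g) (vecL L h) = vecL L (fun K => Nat.xor (g K) (h K)) := by
  intro L
  induction L with
  | nil => intro _ _; exact Nat.xor_self 0
  | cons K L ih =>
    intro h1 h2
    rw [vecL_cons, vecL_cons, vecL_cons, xor_field (h1 K List.mem_cons_self)
      (h2 K List.mem_cons_self), ih (fun K' h' => h1 K' (List.mem_cons_of_mem _ h'))
      (fun K' h' => h2 K' (List.mem_cons_of_mem _ h'))]

theorem vecL_add (g h : ℕ → ℕ) : ∀ L : List ℕ,
    Nat.add (vecL L g) (vecL L h) = vecL L (fun K => g K + h K) := by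
  intro L
  induction L with
  | nil => rfl
  | cons K L ih =>
    rw [vecL_cons, vecL_cons, vecL_cons, ← ih]
    show g K + 65536 * vecL L g + (h K + 65536 * vecL L h) =
      g K + h K + 65536 * (vecL L g + vecL L h)
    ring

theorem vecL_congr {g h : ℕ → ℕ} : ∀ {L : List ℕ}, (∀ K ∈ L, g K = h K) → vecL L g = vecL L h := by
  intro L
  induction L with
  | nil => intro _; rfl
  | cons K L ih =>
    intro h1
    rw [vecL_cons, vecL_cons, h1 K List.mem_cons_self,
      ih (fun K' h' => h1 K' (List.mem_cons_of_mem _ h'))]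

theorem vecL_inj {g h : ℕ → ℕ} : ∀ {L : List ℕ}, (∀ K ∈ L, g K < 65536) →
    (∀ K ∈ L, h K < 65536) → vecL L g = vecL L h → ∀ K ∈ L, g K = h K := by
  intro L
  induction L with
  | nil => intro _ _ _ K hK; simp at hK
  | cons K0 L ih =>
    intro h1 h2 h3 K hK
    rw [vecL_cons, vecL_cons] at h3
    have h4 := h1 K0 List.mem_cons_self
    have h5 := h2 K0 List.mem_cons_self
    rcases List.mem_cons.1 hK with rfl | hK
    · omega
    · exact ih (fun K' h' => h1 K' (List.mem_cons_of_mem _ h'))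
        (fun K' h' => h2 K' (List.mem_cons_of_mem _ h')) (by omega) K hK

theorem vecL_zero {g : ℕ → ℕ} : ∀ {L : List ℕ}, vecL L g = 0 → ∀ K ∈ L, g K = 0 := by
  intro L
  induction L with
  | nil => intro _ K hK; simp at hK
  | cons K0 L ih =>
    intro h3 K hK
    rw [vecL_cons] at h3
    rcases List.mem_cons.1 hK with rfl | hK
    · omega
    · exact ih (by omega) K hK

theorem vecL_mod (g : ℕ → ℕ) : ∀ L : List ℕ, vecL L g % 65535 = (L.map g).sum % 65535 := by
  intro L
  induction L with
  | nil => rfl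
  | cons K L ih =>
    rw [vecL_cons, List.map_cons, List.sum_cons]
    omega

theorem land_full {x : ℕ} (hx : x < 65536) : Nat.land x 65535 = x := by
  have h := Nat.and_two_pow_sub_one_eq_mod x 16
  have h2 : Nat.land x 65535 = x &&& (2 ^ 16 - 1) := rfl
  rw [h2, h]
  exact Nat.mod_eq_of_lt hx

theorem land_zero' (x : ℕ) : Nat.land x 0 = 0 := Nat.and_zero x

theorem xor_self' (x : ℕ) : Nat.xor x x = 0 := Nat.xor_self x

theorem xor_zero' (x : ℕ) : Nat.xor x 0 = x := Nat.xor_zero x

open Classical in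
/-- weight of a line -/
noncomputable def gw (p : ℕ → Prop) (S : Finset E9) (K : ℕ) : ℕ :=
  if p K then 2 ^ (ds K ∩ S).card else 0

open Classical in
/-- mask of a set of lines -/
noncomputable def gm (q : ℕ → Prop) (K : ℕ) : ℕ := if q K then 65535 else 0

/-- `v` are the weights of the lines with `p`; `S` are the edges of Maker -/
def VS (v : ℕ) (p : ℕ → Prop) (S : Finset E9) : Prop := v = vecL Ks (gw p S)

/-- `m` is the mask of the lines with `q` -/
def VM (m : ℕ) (q : ℕ → Prop) : Prop := m = vecL Ks (gm q)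

theorem gw_le {p : ℕ → Prop} {S : Finset E9} {K : ℕ} (hK : K ∈ Ks) : gw p S K ≤ 64 := by
  unfold gw
  split_ifs
  · have h1 : (ds K ∩ S).card ≤ 6 :=
      (Finset.card_le_card Finset.inter_subset_left).trans (Ks_card K hK).le
    calc 2 ^ (ds K ∩ S).card ≤ 2 ^ 6 := Nat.pow_le_pow_right (by norm_num) h1
      _ = 64 := by norm_num
  · omega

theorem gw_lt {p : ℕ → Prop} {S : Finset E9} {K : ℕ} (hK : K ∈ Ks) : gw p S K < 65536 :=
  lt_of_le_of_lt (gw_le hK) (by norm_num)

theorem gm_lt {q : ℕ → Prop} {K : ℕ} : gm q K < 65536 := by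
  unfold gm
  split_ifs <;> norm_num

theorem VM.land {m1 m2 : ℕ} {q1 q2 : ℕ → Prop} (h1 : VM m1 q1) (h2 : VM m2 q2) :
    VM (Nat.land m1 m2) (fun K => q1 K ∧ q2 K) := by
  unfold VM at *
  rw [h1, h2, vecL_land _ _ _ (fun _ _ => gm_lt) (fun _ _ => gm_lt)]
  apply vecL_congr
  intro K _
  unfold gm
  by_cases a1 : q1 K <;> by_cases a2 : q2 K <;>
    simp only [a1, a2, if_true, if_false, and_true, and_false] <;> rfl

theorem VS.land {v m : ℕ} {p q : ℕ → Prop} {S : Finset E9} (h1 : VS v p S) (h2 : VM m q) :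
    VS (Nat.land v m) (fun K => p K ∧ q K) S := by
  unfold VS VM at *
  rw [h1, h2, vecL_land _ _ _ (fun _ h => gw_lt h) (fun _ _ => gm_lt)]
  apply vecL_congr
  intro K hK
  have h3 := gw_lt (p := p) (S := S) hK
  by_cases a2 : q K
  · have : gm q K = 65535 := by unfold gm; rw [if_pos a2]
    rw [this, land_full h3]
    unfold gw
    by_cases a1 : p K
    · rw [if_pos a1, if_pos ⟨a1, a2⟩]
    · rw [if_neg a1, if_neg (fun h' => a1 h'.1)]
  · have : gm q K = 0 := by unfold gm; rw [if_neg a2]
    rw [this, land_zero']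
    unfold gw
    rw [if_neg (fun h' => a2 h'.2)]

theorem VS.kil {v m : ℕ} {p q : ℕ → Prop} {S : Finset E9} (h1 : VS v p S) (h2 : VM m q) :
    VS (kil v m) (fun K => p K ∧ ¬ q K) S := by
  have h3 := h1.land h2
  have h0 : Pool.Agent.K4B.kil v m = Nat.xor v (Nat.land v m) := rfl
  unfold VS at h1 h3 ⊢
  rw [h0, h3, h1, vecL_xor _ _ _ (fun _ h => gw_lt h) (fun _ h => gw_lt h)]
  apply vecL_congr
  intro K hK
  unfold gw
  by_cases a1 : p K <;> by_cases a2 : q K
  · simp only [a1, a2, not_true, and_true, and_false, if_true, if_false]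
    exact xor_self' _
  · simp only [a1, a2, not_false_eq_true, and_true, and_false, if_true, if_false]
    exact xor_zero' _
  · simp only [a1, false_and, if_false]
    exact xor_zero' _
  · simp only [a1, false_and, if_false]
    exact xor_zero' _

theorem VS.dbl {v m : ℕ} {p : ℕ → Prop} {S : Finset E9} (h1 : VS v p S) {e : E9}
    (h2 : VM m (fun K => e ∈ ds K)) (he : e ∉ S) : VS (dbl v m) p (insert e S) := by
  have h3 := h1.land h2
  have h0 : Pool.Agent.K4B.dbl v m = Nat.add v (Nat.land v m) := rfl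
  unfold VS at h1 h3 ⊢
  rw [h0, h3, h1, vecL_add]
  apply vecL_congr
  intro K hK
  unfold gw
  by_cases a1 : p K
  · by_cases a2 : e ∈ ds K
    · simp only [a1, a2, and_true, if_true]
      rw [Finset.inter_insert_of_mem a2, Finset.card_insert_of_notMem, pow_succ]
      · ring
      · intro h'; exact he (Finset.mem_inter.1 h').2
    · simp only [a1, a2, and_false, if_true, if_false]
      rw [Finset.inter_insert_of_notMem a2]; rfl
  · simp only [a1, false_and, if_false]

theorem VS.zero {v m : ℕ} {p q : ℕ → Prop} {S : Finset E9} (h1 : VS v p S) (h2 : VM m q)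
    (h : Nat.beq (Nat.land v m) 0 = true) : ∀ K ∈ Ks, p K → ¬ q K := by
  intro K hK hp hq
  have h3 := h1.land h2
  unfold VS at h3
  have h4 : Nat.land v m = 0 := beq_true h
  rw [h3] at h4
  have h5 := vecL_zero h4 K hK
  unfold gw at h5
  rw [if_pos ⟨hp, hq⟩] at h5
  have : 0 < 2 ^ (ds K ∩ S).card := by positivity
  omega

theorem VS.sub {v m : ℕ} {p q : ℕ → Prop} {S : Finset E9} (h1 : VS v p S) (h2 : VM m q)
    (h : Nat.beq (Nat.land v m) v = true) : ∀ K ∈ Ks, p K → q K := by
  intro K hK hp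
  by_contra hq
  have h3 := h1.land h2
  have h4 : Nat.land v m = v := beq_true h
  unfold VS at h1 h3
  rw [h3, h1] at h4
  have h5 := vecL_inj (fun _ h => gw_lt h) (fun _ h => gw_lt h) h4 K hK
  unfold gw at h5
  rw [if_pos hp, if_neg (fun h' => hq h'.2)] at h5
  have : 0 < 2 ^ (ds K ∩ S).card := by positivity
  omega

theorem VS.congr {v : ℕ} {p p' : ℕ → Prop} {S S' : Finset E9} (h : VS v p S)
    (hp : ∀ K ∈ Ks, (p K ↔ p' K)) (hS : ∀ K ∈ Ks, ds K ∩ S = ds K ∩ S') : VS v p' S' := by
  unfold VS at *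
  rw [h]
  apply vecL_congr
  intro K hK
  unfold gw
  rw [hS K hK]
  by_cases a : p K
  · rw [if_pos a, if_pos ((hp K hK).1 a)]
  · rw [if_neg a, if_neg (fun h' => a ((hp K hK).2 h'))]

theorem ks_len : Ks.length = 126 := by decide +kernel

theorem sum_gw_le {p : ℕ → Prop} {S : Finset E9} : ∀ L : List ℕ, (∀ K ∈ L, K ∈ Ks) →
    (L.map (gw p S)).sum ≤ 64 * L.length := by
  intro L
  induction L with
  | nil => intro _; simp
  | cons K L ih =>
    intro h
    rw [List.map_cons, List.sum_cons, List.length_cons]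
    have h1 := ih (fun K' h' => h K' (List.mem_cons_of_mem _ h'))
    have h2 := gw_le (p := p) (S := S) (h K List.mem_cons_self)
    omega

theorem VS.sum {v : ℕ} {p : ℕ → Prop} {S : Finset E9} (h : VS v p S) :
    Nat.mod v 65535 = (Ks.map (gw p S)).sum := by
  have h1 : Nat.mod v 65535 = v % 65535 := rfl
  have h2 := sum_gw_le (p := p) (S := S) Ks (fun _ h => h)
  rw [ks_len] at h2
  unfold VS at h
  rw [h1, h, vecL_mod]
  apply Nat.mod_eq_of_lt
  omega

/-! ### the masks of the edges -/

theorem ME_tab : ∀ x y : Fin 9, x ≠ y → Nat.beq (ME x y)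
    (vecL Ks (fun K => cond (K.testBit (cdu x y)) 65535 0)) = true := by decide +kernel

theorem VM_ME {x y : Fin 9} (h : x ≠ y) : VM (ME x y) (fun K => s(x, y) ∈ ds K) := by
  unfold VM
  rw [beq_true (ME_tab x y h)]
  apply vecL_congr
  intro K _
  unfold gm
  have h1 : cdu x y = code s(x, y) := by rw [cdu_eq, code_mk]
  rw [h1]
  by_cases h2 : K.testBit (code s(x, y)) = true
  · rw [if_pos (mem_ds.2 h2), h2]; rfl
  · rw [if_neg (fun h' => h2 (mem_ds.1 h'))]
    rw [Bool.not_eq_true] at h2
    rw [h2]; rfl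

theorem VM_MV {e : E9} (h : ¬ e.IsDiag) : VM (MV (code e)) (fun K => e ∈ ds K) := by
  induction e using Sym2.ind with | _ x y => ?_
  rw [Sym2.mk_isDiag_iff] at h
  have hx := x.2
  have hy := y.2
  have h0 : MV (code s(x, y)) = ME (code s(x, y) / 9) (code s(x, y) % 9) := rfl
  rw [h0, code_mk]
  rcases le_total (x : ℕ) (y : ℕ) with hxy | hxy
  · rw [min_eq_left hxy, max_eq_right hxy]
    have e1 : (9 * (x : ℕ) + y) / 9 = x := by omega
    have e2 : (9 * (x : ℕ) + y) % 9 = y := by omega
    rw [e1, e2]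
    exact VM_ME h
  · rw [min_eq_right hxy, max_eq_left hxy]
    have e1 : (9 * (y : ℕ) + x) / 9 = y := by omega
    have e2 : (9 * (y : ℕ) + x) % 9 = x := by omega
    rw [e1, e2, Sym2.eq_swap]
    exact VM_ME (Ne.symm h)

/-! ### the potential -/

theorem wt_gw {p : ℕ → Prop} {S : Finset E9} : ∀ L : List ℕ, (∀ K ∈ L, K ∈ Ks) →
    ∃ P : List (Finset E9), (∀ K ∈ L, p K → ds K \ S ∈ P) ∧
      64 * wt P = (((L.map (gw p S)).sum : ℕ) : ℚ) := by
  intro L
  induction L with
  | nil => intro _; exact ⟨[], by simp, by simp [wt_nil]⟩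
  | cons K L ih =>
    intro h
    obtain ⟨P, h1, h2⟩ := ih (fun K' h' => h K' (List.mem_cons_of_mem _ h'))
    have hK := h K List.mem_cons_self
    rw [List.map_cons, List.sum_cons]
    by_cases hp : p K
    · refine ⟨(ds K \ S) :: P, ?_, ?_⟩
      · intro K' hK' hp'
        rcases List.mem_cons.1 hK' with rfl | hK'
        · exact List.mem_cons_self
        · exact List.mem_cons_of_mem _ (h1 K' hK' hp')
      · rw [wt_cons, mul_add, h2]
        have h3 : gw p S K = 2 ^ (ds K ∩ S).card := by unfold gw; rw [if_pos hp]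
        have h4 : (ds K \ S).card + (ds K ∩ S).card = 6 := by
          rw [← Ks_card K hK]; exact Finset.card_sdiff_add_card_inter _ _
        have h5 : (64 : ℚ) * (1 / 2) ^ (ds K \ S).card = 2 ^ (ds K ∩ S).card := by
          have h6 : (64 : ℚ) = 2 ^ ((ds K \ S).card + (ds K ∩ S).card) := by rw [h4]; norm_num
          rw [h6, pow_add, one_div, inv_pow]
          have : (2 : ℚ) ^ (ds K \ S).card ≠ 0 := by positivity
          field_simp
        rw [h3, h5]
        push_cast
        ring
    · refine ⟨P, ?_, ?_⟩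
      · intro K' hK' hp'
        rcases List.mem_cons.1 hK' with rfl | hK'
        · exact absurd hp' hp
        · exact h1 K' hK' hp'
      · have h3 : gw p S K = 0 := by unfold gw; rw [if_neg hp]
        rw [h3, h2, zero_add]

end Pool.Agent.K4B
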